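import Pool.Agent.Lib.SBW.TopB46

/-!
SBW, top part (helper46), C: the components of a function of three sign vectors.
-/

set_option autoImplicit false

namespace Pool.Agent.SBW.T46

open Finset Pool.Agent.SB3 Pool.Agent.SBT Pool.Agent.SBW

/-! ### `cf` -/

theorem cf_eq46 {L : ℕ} (H : Y L → Y L → Y L → ℝ) (i p q : ℕ) (x y z : Y L) :
    Ey q (fun z' => sgr (bit z' q) * Wp (fun y z => Mx H i x y z) p y z') z =
      cf H i p q x y z := by
  unfold Wp Mx cf
  have h1 : ∀ z' : Y L, sgr (bit z' q) *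
      Ey p (fun y' => sgr (bit y' p) * Ey i (fun x' => sgr (bit x' i) * H x' y' z') x) y =
      Ey p (fun y' => Ey i (fun x' =>
        sgr (bit x' i) * sgr (bit y' p) * sgr (bit z' q) * H x' y' z') x) y := by
    intro z'
    rw [← Ey_smul46]
    apply Ey_congr46
    intro y'
    rw [← mul_assoc, ← Ey_smul46]
    apply Ey_congr46
    intro x'
    ring
  rw [Ey_congr46 q h1 z, Ey_comm46]
  have h2 : ∀ y' : Y L, Ey q (fun z' => Ey i (fun x' =>
        sgr (bit x' i) * sgr (bit y' p) * sgr (bit z' q) * H x' y' z') x) z =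
      Ey i (fun x' => Ey q (fun z' =>
        sgr (bit x' i) * sgr (bit y' p) * sgr (bit z' q) * H x' y' z') z) x := by
    intro y'
    exact Ey_comm46 _ _ _ _ _
  rw [Ey_congr46 p h2 y, Ey_comm46]

theorem cf_add46 {L : ℕ} (H H' : Y L → Y L → Y L → ℝ) (a : ℝ) (i p q : ℕ) (x y z : Y L) :
    cf (fun x y z => H x y z + a * H' x y z) i p q x y z =
      cf H i p q x y z + a * cf H' i p q x y z := by
  unfold cf
  rw [← Ey_add46]
  apply Ey_congr46
  intro x'
  rw [← Ey_add46]
  apply Ey_congr46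
  intro y'
  rw [← Ey_add46]
  apply Ey_congr46
  intro z'
  ring

theorem cf_dep46 {L : ℕ} (H : Y L → Y L → Y L → ℝ) (i p q : ℕ) (x y z x' y' z' : Y L)
    (hx : pre i x = pre i x') (hy : pre p y = pre p y') (hz : pre q z = pre q z') :
    cf H i p q x y z = cf H i p q x' y' z' := by
  unfold cf
  rw [Ey_pre33 _ hx]
  apply Ey_congr46
  intro x''
  rw [Ey_pre33 _ hy]
  apply Ey_congr46
  intro y''
  exact Ey_pre33 _ hz

theorem Ey_le46 {L : ℕ} (i : ℕ) (φ : Y L → ℝ) (M : ℝ) (h : ∀ x, |φ x| ≤ M) (x : Y L) :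
    |Ey i φ x| ≤ M := by
  have h1 := Ey_abs33 i φ x
  have h2 : Ey i (fun x' => |φ x'|) x ≤ Ey i (fun _ => M) x := by
    unfold Ey
    apply div_le_div_of_nonneg_right _ (by positivity)
    apply Finset.sum_le_sum
    intro x' _
    split_ifs
    · exact h x'
    · exact le_rfl
  have h3 : Ey i (fun _ : Y L => M) x = M :=
    Ey_mea33 (fun _ => M) L i (by omega) (fun _ _ _ => rfl) x
  linarith

theorem abs_sgr46 (b : Bool) : |sgr b| = 1 := by
  cases b <;> simp [sgr]

theorem cf_le46 {L : ℕ} (H : Y L → Y L → Y L → ℝ) (M : ℝ) (h : ∀ x y z, |H x y z| ≤ M)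
    (i p q : ℕ) (x y z : Y L) : |cf H i p q x y z| ≤ M := by
  unfold cf
  apply Ey_le46
  intro x'
  apply Ey_le46
  intro y'
  apply Ey_le46
  intro z'
  rw [abs_mul, abs_mul, abs_mul, abs_sgr46, abs_sgr46, abs_sgr46, one_mul, one_mul, one_mul]
  exact h x' y' z'

/-- functions which do not depend on one of the variables have no components -/
theorem cf_x46 {L : ℕ} (H : Y L → Y L → ℝ) (i p q : ℕ) (hi : i < L) (x y z : Y L) :
    cf (fun _ y z => H y z) i p q x y z = 0 := by
  unfold cf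
  have h1 : ∀ x' : Y L, Ey p (fun y' => Ey q (fun z' =>
      sgr (bit x' i) * sgr (bit y' p) * sgr (bit z' q) * H y' z') z) y =
      sgr (bit x' i) * Ey p (fun y' => Ey q (fun z' =>
        sgr (bit y' p) * sgr (bit z' q) * H y' z') z) y := by
    intro x'
    rw [← Ey_smul46]
    apply Ey_congr46
    intro y'
    rw [← Ey_smul46]
    apply Ey_congr46
    intro z'
    ring
  rw [Ey_congr46 i h1 x]
  exact Ey_sgr46 hi _ x

theorem cf_y46 {L : ℕ} (H : Y L → Y L → ℝ) (i p q : ℕ) (hp : p < L) (x y z : Y L) :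
    cf (fun x _ z => H x z) i p q x y z = 0 := by
  unfold cf
  rw [Ey_congr46 i (ψ := fun _ => 0) _ x, Ey_zero46]
  intro x'
  have h1 : ∀ y' : Y L, Ey q (fun z' =>
      sgr (bit x' i) * sgr (bit y' p) * sgr (bit z' q) * H x' z') z =
      sgr (bit y' p) * Ey q (fun z' => sgr (bit x' i) * sgr (bit z' q) * H x' z') z := by
    intro y'
    rw [← Ey_smul46]
    apply Ey_congr46
    intro z'
    ring
  rw [Ey_congr46 p h1 y]
  exact Ey_sgr46 hp _ y

theorem cf_z46 {L : ℕ} (H : Y L → Y L → ℝ) (i p q : ℕ) (hq : q < L) (x y z : Y L) :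
    cf (fun x y _ => H x y) i p q x y z = 0 := by
  unfold cf
  rw [Ey_congr46 i (ψ := fun _ => 0) _ x, Ey_zero46]
  intro x'
  rw [Ey_congr46 p (ψ := fun _ => 0) _ y, Ey_zero46]
  intro y'
  have h1 : ∀ z' : Y L, sgr (bit x' i) * sgr (bit y' p) * sgr (bit z' q) * H x' y' =
      sgr (bit z' q) * (sgr (bit x' i) * sgr (bit y' p) * H x' y') := by
    intro z'
    ring
  rw [Ey_congr46 q h1 z]
  exact Ey_sgr46 hq _ z

/-! ### the pure triple part -/

/-- the part of `H` with mean zero in each of the three variables -/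
noncomputable def Az {L : ℕ} (H : Y L → Y L → Y L → ℝ) (x y z : Y L) : ℝ :=
  H x y z + (-1) * Ey 0 (fun z' => H x y z') z

noncomputable def Ay {L : ℕ} (H : Y L → Y L → Y L → ℝ) (x y z : Y L) : ℝ :=
  H x y z + (-1) * Ey 0 (fun y' => H x y' z) y

noncomputable def Ax {L : ℕ} (H : Y L → Y L → Y L → ℝ) (x y z : Y L) : ℝ :=
  H x y z + (-1) * Ey 0 (fun x' => H x' y z) x

noncomputable def H3 {L : ℕ} (H : Y L → Y L → Y L → ℝ) : Y L → Y L → Y L → ℝ := Ax (Ay (Az H))

theorem Ey_Ey46 {L : ℕ} (φ : Y L → ℝ) (x : Y L) : Ey 0 (fun x' => Ey 0 φ x') x = Ey 0 φ x := by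
  apply Ey_mea33 _ L 0 (by omega)
  intro x1 x2 _
  exact Ey_pre33 _ (Ent3.pre_zero x1 x2)

theorem Ax_mean46 {L : ℕ} (H : Y L → Y L → Y L → ℝ) (x y z : Y L) :
    Ey 0 (fun x' => Ax H x' y z) x = 0 := by
  unfold Ax
  rw [Ey_add46, Ey_Ey46]
  ring

theorem Az_mean46 {L : ℕ} (H : Y L → Y L → Y L → ℝ) (x y z : Y L) :
    Ey 0 (fun z' => Az H x y z') z = 0 := by
  unfold Az
  rw [Ey_add46, Ey_Ey46]
  ring

theorem Ay_mz46 {L : ℕ} (H : Y L → Y L → Y L → ℝ)
    (h : ∀ x y z, Ey 0 (fun z' => H x y z') z = 0) (x y z : Y L) :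
    Ey 0 (fun z' => Ay H x y z') z = 0 := by
  unfold Ay
  rw [Ey_add46, h, Ey_comm46, Ey_congr46 0 (ψ := fun _ => 0) (fun y' => h x y' z) y, Ey_zero46]
  ring

theorem Ax_mz46 {L : ℕ} (H : Y L → Y L → Y L → ℝ)
    (h : ∀ x y z, Ey 0 (fun z' => H x y z') z = 0) (x y z : Y L) :
    Ey 0 (fun z' => Ax H x y z') z = 0 := by
  unfold Ax
  rw [Ey_add46, h, Ey_comm46, Ey_congr46 0 (ψ := fun _ => 0) (fun x' => h x' y z) x, Ey_zero46]
  ring

theorem H3_mx46 {L : ℕ} (H : Y L → Y L → Y L → ℝ) (x y z : Y L) :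
    Ey 0 (fun x' => H3 H x' y z) x = 0 := Ax_mean46 _ x y z

theorem H3_mz46 {L : ℕ} (H : Y L → Y L → Y L → ℝ) (x y z : Y L) :
    Ey 0 (fun z' => H3 H x y z') z = 0 :=
  Ax_mz46 _ (Ay_mz46 _ (Az_mean46 H)) x y z

theorem H3_le46 {L : ℕ} (H : Y L → Y L → Y L → ℝ) (M : ℝ) (h : ∀ x y z, |H x y z| ≤ M)
    (x y z : Y L) : |H3 H x y z| ≤ 8 * M := by
  have h1 : ∀ x y z, |Az H x y z| ≤ 2 * M := by
    intro x y z
    unfold Az
    have h1 := h x y z
    have h2 := Ey_le46 0 (fun z' => H x y z') M (fun z' => h x y z') z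
    rw [abs_le] at h1 h2 ⊢
    constructor <;> linarith [h1.1, h1.2, h2.1, h2.2]
  have h2 : ∀ x y z, |Ay (Az H) x y z| ≤ 4 * M := by
    intro x y z
    unfold Ay
    have h3 := h1 x y z
    have h4 := Ey_le46 0 (fun y' => Az H x y' z) (2 * M) (fun y' => h1 x y' z) y
    rw [abs_le] at h3 h4 ⊢
    constructor <;> linarith [h3.1, h3.2, h4.1, h4.2]
  unfold H3 Ax
  have h3 := h2 x y z
  have h4 := Ey_le46 0 (fun x' => Ay (Az H) x' y z) (4 * M) (fun x' => h2 x' y z) x
  rw [abs_le] at h3 h4 ⊢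
  constructor <;> linarith [h3.1, h3.2, h4.1, h4.2]

theorem cf_H346 {L : ℕ} (H : Y L → Y L → Y L → ℝ) (i p q : ℕ) (hi : i < L) (hp : p < L)
    (hq : q < L) (x y z : Y L) : cf (H3 H) i p q x y z = cf H i p q x y z := by
  have hx0 : ∀ (G : Y L → Y L → Y L → ℝ), cf (Ax G) i p q x y z = cf G i p q x y z := by
    intro G
    have h1 : Ax G = fun x y z => G x y z +
        (-1) * (fun (_ : Y L) y z => Ey 0 (fun x' => G x' y z) (fun _ => false)) x y z := by
      funext x y z
      unfold Ax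
      rw [Ey_pre33 (fun x' => G x' y z) (Ent3.pre_zero x (fun _ => false))]
    rw [h1, cf_add46, cf_x46 _ i p q hi]
    ring
  have hy0 : ∀ (G : Y L → Y L → Y L → ℝ), cf (Ay G) i p q x y z = cf G i p q x y z := by
    intro G
    have h1 : Ay G = fun x y z => G x y z +
        (-1) * (fun x (_ : Y L) z => Ey 0 (fun y' => G x y' z) (fun _ => false)) x y z := by
      funext x y z
      unfold Ay
      rw [Ey_pre33 (fun y' => G x y' z) (Ent3.pre_zero y (fun _ => false))]
    rw [h1, cf_add46, cf_y46 _ i p q hp]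
    ring
  have hz0 : ∀ (G : Y L → Y L → Y L → ℝ), cf (Az G) i p q x y z = cf G i p q x y z := by
    intro G
    have h1 : Az G = fun x y z => G x y z +
        (-1) * (fun x y (_ : Y L) => Ey 0 (fun z' => G x y z') (fun _ => false)) x y z := by
      funext x y z
      unfold Az
      rw [Ey_pre33 (fun z' => G x y z') (Ent3.pre_zero z (fun _ => false))]
    rw [h1, cf_add46, cf_z46 _ i p q hq]
    ring
  unfold H3
  rw [hx0, hy0, hz0]

/-! ### admissibility -/

/-- a function with no finer components and mean zero in `z` -/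
theorem adm_main46 {L : ℕ} (G : Y L → Y L → Y L → ℝ)
    (hz : ∀ x y z, Ey 0 (fun z' => G x y z') z = 0)
    (hv : ∀ i p q, i < L → p < L → q < L → L ≤ i + p + q → ∀ x y z, cf G i p q x y z = 0)
    (j : ℕ) (hj : j < L) (x : Y L) :
    Adm L j (fun y z => Mx G (L - 1 - j) x y z)
      (fun p y z => cf G (L - 1 - j) p (j - p) x y z) := by
  set i := L - 1 - j with hi
  have hiL : i < L := by omega
  refine ⟨?_, ?_, ?_⟩
  · intro y y' z hy
    have hW : ∀ p, j + 1 ≤ p → p < L → ∀ y, Wp (fun y z => Mx G i x y z) p y z = 0 := by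
      intro p hp hpL y
      have h1 : Ey 0 (fun z' => Wp (fun y z => Mx G i x y z) p y z') z =
          Wp (fun y z => Mx G i x y z) p y z := by
        apply Ey_trunc46
        intro q _ hq z'
        rw [cf_eq46]
        exact hv i p q hiL hpL hq (by omega) x y z'
      rw [← h1]
      unfold Wp
      rw [Ey_comm46, Ey_congr46 p (ψ := fun _ => 0) _ y, Ey_zero46]
      intro y'
      rw [Ey_smul46]
      have h2 : Ey 0 (fun z' => Mx G i x y' z') z = 0 := by
        unfold Mx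
        rw [Ey_comm46, Ey_congr46 i (ψ := fun _ => 0) _ x, Ey_zero46]
        intro x'
        rw [Ey_smul46, hz, mul_zero]
      rw [h2, mul_zero]
    have h1 : ∀ y, Ey (j + 1) (fun y' => Mx G i x y' z) y = Mx G i x y z := by
      intro y
      apply Ey_trunc46 (fun y' => Mx G i x y' z)
      intro p hp hpL y'
      exact hW p hp hpL y'
    rw [← h1 y, ← h1 y']
    exact Ey_pre33 _ hy
  · intro p hp y z z' hzz
    have h1 : ∀ z, Ey (j - p + 1) (fun z' => Wp (fun y z => Mx G i x y z) p y z') z =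
        Wp (fun y z => Mx G i x y z) p y z := by
      intro z
      apply Ey_trunc46 (fun z' => Wp (fun y z => Mx G i x y z) p y z')
      intro q hq hqL z'
      rw [cf_eq46]
      exact hv i p q hiL (by omega) hqL (by omega) x y z'
    rw [← h1 z, ← h1 z']
    exact Ey_pre33 _ hzz
  · intro p hp y z
    exact cf_eq46 G i p (j - p) x y z

theorem Mx_dep46 {L : ℕ} (f : Y L → Y L → Y L → ℝ) (i : ℕ) (hi : i < L)
    (hf : ∀ x x' y z, pre i x = pre i x' → f x y z = f x' y z) (x y z : Y L) :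
    Mx f i x y z = 0 := by
  unfold Mx
  exact Ey_sgr_dep46 hi (fun x' => f x' y z) (fun x1 x2 h => hf x1 x2 y z h) x

/-- a function of coarse past -/
theorem adm_coarse46 {L : ℕ} (f : Y L → Y L → Y L → ℝ) (i' p' q' : ℕ)
    (hs : i' + p' + q' + 1 = L)
    (hf : ∀ x x' y y' z z', pre i' x = pre i' x' → pre p' y = pre p' y' → pre q' z = pre q' z' →
      f x y z = f x' y' z') (j : ℕ) (hj : j < L) (x : Y L) :
    Adm L j (fun y z => Mx f (L - 1 - j) x y z) (fun _ _ _ => 0) := by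
  set i := L - 1 - j with hi
  have hiL : i < L := by omega
  by_cases hii : i' ≤ i
  · have h0 : (fun y z => Mx f i x y z) = (fun (_ _ : Y L) => (0 : ℝ)) := by
      funext y z
      apply Mx_dep46 f i hiL
      intro x1 x2 y z h
      exact hf x1 x2 y y z z (pre_mono33 hii h) rfl rfl
    rw [h0]
    exact adm_zero46
  · have hdep : ∀ y y' z z', pre p' y = pre p' y' → pre q' z = pre q' z' →
        Mx f i x y z = Mx f i x y' z' := by
      intro y y' z z' hy hz
      unfold Mx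
      apply Ey_congr46
      intro x'
      rw [hf x' x' y y' z z' rfl hy hz]
    have hWz : ∀ p y z z', pre q' z = pre q' z' →
        Wp (fun y z => Mx f i x y z) p y z = Wp (fun y z => Mx f i x y z) p y z' := by
      intro p y z z' hz
      unfold Wp
      apply Ey_congr46
      intro y'
      show sgr (bit y' p) * Mx f i x y' z = sgr (bit y' p) * Mx f i x y' z'
      rw [hdep y' y' z z' rfl hz]
    have hW0 : ∀ p, p' ≤ p → p < L → ∀ y z, Wp (fun y z => Mx f i x y z) p y z = 0 := by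
      intro p hp hpL y z
      unfold Wp
      apply Ey_sgr_dep46 hpL (fun y' => Mx f i x y' z)
      intro y1 y2 h
      exact hdep y1 y2 z z (pre_mono33 hp h) rfl
    refine ⟨?_, ?_, ?_⟩
    · intro y y' z hy
      exact hdep y y' z z (pre_mono33 (by omega : p' ≤ j + 1) hy) rfl
    · intro p hp y z z' hz
      by_cases hpp : p' ≤ p
      · rw [hW0 p hpp (by omega) y z, hW0 p hpp (by omega) y z']
      · exact hWz p y z z' (pre_mono33 (by omega : q' ≤ j - p + 1) hz)
    · intro p hp y z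
      by_cases hpp : p' ≤ p
      · rw [Ey_congr46 (j - p) (ψ := fun _ => 0) (fun z' => by
          rw [hW0 p hpp (by omega) y z', mul_zero]) z, Ey_zero46]
      · apply Ey_sgr_dep46 (by omega : j - p < L) (fun z' => Wp (fun y z => Mx f i x y z) p y z')
        intro z1 z2 h
        exact hWz p y z1 z2 (pre_mono33 (by omega : q' ≤ j - p) h)

theorem Mx_add46 {L : ℕ} (G G' : Y L → Y L → Y L → ℝ) (a : ℝ) (i : ℕ) (x y z : Y L) :
    Mx (fun x y z => G x y z + a * G' x y z) i x y z = Mx G i x y z + a * Mx G' i x y z := by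
  unfold Mx
  rw [← Ey_add46]
  apply Ey_congr46
  intro x'
  ring

theorem Mx_sum46 {L : ℕ} {ι : Type} (s : Finset ι) (G : ι → Y L → Y L → Y L → ℝ) (i : ℕ)
    (x y z : Y L) :
    Mx (fun x y z => ∑ k ∈ s, G k x y z) i x y z = ∑ k ∈ s, Mx (G k) i x y z := by
  unfold Mx
  rw [← Ey_sum46]
  apply Ey_congr46
  intro x'
  rw [Finset.mul_sum]

end Pool.Agent.SBW.T46
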