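import Pool.Agent.Lib.SBW.Stmts7

/-!
SBW, helper38: the module NOISE (truncated two sided geometric noise).
-/

set_option autoImplicit false

namespace Pool.Agent.SBW

open Finset Pool.Agent.SB3

namespace N38

/-- the weight -/
noncomputable def h (σ : ℝ) (t : ℤ) : ℝ := Real.exp (-|(t : ℝ)| / σ)

/-- the partition function -/
noncomputable def Z (σ : ℝ) (R : ℕ) : ℝ := ∑ t ∈ Finset.Icc (-(R : ℤ)) (R : ℤ), h σ t

lemma h_pos (σ : ℝ) (t : ℤ) : 0 < h σ t := Real.exp_pos _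

lemma h_zero (σ : ℝ) : h σ 0 = 1 := by simp [h]

lemma h_neg (σ : ℝ) (t : ℤ) : h σ (-t) = h σ t := by simp [h]

lemma Z_ge (σ : ℝ) (R : ℕ) : 1 ≤ Z σ R := by
  unfold Z
  rw [← h_zero σ]
  exact Finset.single_le_sum (f := h σ) (fun t _ => (h_pos σ t).le)
    (Finset.mem_Icc.mpr ⟨by omega, by omega⟩)

lemma Z_pos (σ : ℝ) (R : ℕ) : 0 < Z σ R := lt_of_lt_of_le one_pos (Z_ge σ R)

lemma Z_diff (σ : ℝ) (hσ : 1 ≤ σ) (R G : ℕ) :
    Z σ (G + R) ≤ Z σ R + 2 * G * Real.exp (-(R : ℝ) / σ) := by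
  unfold Z
  have hsub : Finset.Icc (-(R : ℤ)) (R : ℤ) ⊆
      Finset.Icc (-((G + R : ℕ) : ℤ)) ((G + R : ℕ) : ℤ) := by
    apply Finset.Icc_subset_Icc <;> omega
  rw [← Finset.sum_sdiff hsub]
  have h1 : ∑ t ∈ Finset.Icc (-((G + R : ℕ) : ℤ)) ((G + R : ℕ) : ℤ) \
      Finset.Icc (-(R : ℤ)) (R : ℤ), h σ t ≤
      ∑ t ∈ Finset.Icc (-((G + R : ℕ) : ℤ)) ((G + R : ℕ) : ℤ) \
      Finset.Icc (-(R : ℤ)) (R : ℤ), Real.exp (-(R : ℝ) / σ) := by
    apply Finset.sum_le_sum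
    intro t ht
    rw [Finset.mem_sdiff, Finset.mem_Icc, Finset.mem_Icc] at ht
    unfold h
    apply Real.exp_le_exp.mpr
    have h2 : (R : ℤ) ≤ |t| := by
      by_contra hcon
      push Not at hcon
      apply ht.2
      have := abs_lt.mp hcon
      constructor <;> omega
    have h3 : (R : ℝ) ≤ |(t : ℝ)| := by exact_mod_cast h2
    rw [div_le_div_iff_of_pos_right (by linarith)]
    linarith
  have h2 : (Finset.Icc (-((G + R : ℕ) : ℤ)) ((G + R : ℕ) : ℤ) \
      Finset.Icc (-(R : ℤ)) (R : ℤ)).card = 2 * G := by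
    rw [Finset.card_sdiff_of_subset hsub, Int.card_Icc, Int.card_Icc]
    omega
  rw [Finset.sum_const, h2, nsmul_eq_mul, Nat.cast_mul, Nat.cast_ofNat] at h1
  linarith

lemma Z_low (σ : ℝ) (hσ : 1 ≤ σ) (R : ℕ) (hR : σ ≤ R) : σ * Real.exp (-1) ≤ Z σ R := by
  unfold Z
  have hf0 : 0 ≤ ⌊σ⌋ := Int.floor_nonneg.mpr (by linarith)
  have hfR : ⌊σ⌋ ≤ (R : ℤ) := by
    have : ⌊σ⌋ ≤ ⌊(R : ℝ)⌋ := Int.floor_le_floor hR
    simpa using this
  have hsub : Finset.Icc (0 : ℤ) ⌊σ⌋ ⊆ Finset.Icc (-(R : ℤ)) (R : ℤ) := by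
    apply Finset.Icc_subset_Icc
    · omega
    · exact hfR
  refine le_trans ?_ (Finset.sum_le_sum_of_subset_of_nonneg hsub (fun t _ _ => (h_pos σ t).le))
  have h1 : ∀ t ∈ Finset.Icc (0 : ℤ) ⌊σ⌋, Real.exp (-1) ≤ h σ t := by
    intro t ht
    rw [Finset.mem_Icc] at ht
    unfold h
    apply Real.exp_le_exp.mpr
    have h2 : (t : ℝ) ≤ σ := le_trans (by exact_mod_cast ht.2) (Int.floor_le σ)
    have h3 : (0 : ℝ) ≤ t := by exact_mod_cast ht.1
    rw [abs_of_nonneg h3, le_div_iff₀ (by linarith)]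
    linarith
  refine le_trans ?_ (Finset.sum_le_sum h1)
  rw [Finset.sum_const, Int.card_Icc, nsmul_eq_mul]
  apply mul_le_mul_of_nonneg_right _ (Real.exp_pos _).le
  have h4 : (((⌊σ⌋ + 1 - 0).toNat : ℕ) : ℝ) = (⌊σ⌋ : ℝ) + 1 := by
    have : (((⌊σ⌋ + 1 - 0).toNat : ℕ) : ℤ) = ⌊σ⌋ + 1 := by
      rw [Int.toNat_of_nonneg (by omega)]
      omega
    exact_mod_cast this
  rw [h4]
  exact (Int.lt_floor_add_one σ).le

lemma tail (σ : ℝ) (hσ : 1 ≤ σ) (R : ℕ) (T : ℤ) (hT : 4 * σ ≤ T) :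
    ∑ t ∈ (Finset.Icc (-(R : ℤ)) (R : ℤ)).filter (fun t => ¬ |t| ≤ T), h σ t ≤
      Real.exp (-4) * Z σ R := by
  have hT0 : 0 ≤ T := by
    have : (0 : ℝ) ≤ T := by linarith
    exact_mod_cast this
  set S := (Finset.Icc (-(R : ℤ)) (R : ℤ)).filter (fun t => ¬ |t| ≤ T) with hS
  have hmem : ∀ t ∈ S, (-(R : ℤ) ≤ t ∧ t ≤ R) ∧ T < |t| := by
    intro t ht
    rw [hS, Finset.mem_filter, Finset.mem_Icc, not_le] at ht
    exact ht
  set f : ℤ → ℤ := fun t => if 0 < t then t - T else t + T with hf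
  have habs : ∀ t ∈ S, |t| = |f t| + T := by
    intro t ht
    have h1 := hmem t ht
    simp only [hf]
    split_ifs with hp
    · rw [abs_of_pos hp] at h1 ⊢
      rw [abs_of_pos (by linarith [h1.2])]
      ring
    · have hn : t ≤ 0 := not_lt.mp hp
      rw [abs_of_nonpos hn] at h1 ⊢
      rw [abs_of_nonpos (by linarith [h1.2])]
      ring
  have hinj : Set.InjOn f S := by
    intro t ht t' ht' hEq
    have h1 := hmem t (Finset.mem_coe.mp ht)
    have h2 := hmem t' (Finset.mem_coe.mp ht')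
    simp only [hf] at hEq
    split_ifs at hEq with hp hp' hp'
    · linarith
    · exfalso
      rw [abs_of_pos hp] at h1
      rw [abs_of_nonpos (not_lt.mp hp')] at h2
      linarith [h1.2, h2.2]
    · exfalso
      rw [abs_of_pos hp'] at h2
      rw [abs_of_nonpos (not_lt.mp hp)] at h1
      linarith [h1.2, h2.2]
    · linarith
  have h1 : ∑ t ∈ S, h σ t ≤ ∑ t ∈ S, Real.exp (-4) * h σ (f t) := by
    apply Finset.sum_le_sum
    intro t ht
    unfold h
    rw [← Real.exp_add]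
    apply Real.exp_le_exp.mpr
    have h2 : |(t : ℝ)| = |((f t : ℤ) : ℝ)| + T := by exact_mod_cast habs t ht
    rw [h2]
    have h3 : (4 : ℝ) ≤ T / σ := by
      rw [le_div_iff₀ (by linarith)]
      exact hT
    have h4 : -(|((f t : ℤ) : ℝ)| + T) / σ = -|((f t : ℤ) : ℝ)| / σ - T / σ := by ring
    rw [h4]
    linarith
  refine h1.trans ?_
  rw [← Finset.mul_sum]
  apply mul_le_mul_of_nonneg_left _ (Real.exp_pos _).le
  rw [← Finset.sum_image (f := h σ) (g := f) hinj]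
  unfold Z
  apply Finset.sum_le_sum_of_subset_of_nonneg
  · intro s hs
    rw [Finset.mem_image] at hs
    obtain ⟨t, ht, rfl⟩ := hs
    have h1 := hmem t ht
    have h2 := habs t ht
    have h3 : |t| ≤ R := abs_le.mpr h1.1
    have h4 : |f t| ≤ R := by linarith
    rw [Finset.mem_Icc]
    exact abs_le.mp h4
  · intro t _ _
    exact (h_pos σ t).le

lemma sum_vt (R : ℕ) (f : ℤ → ℝ) :
    ∑ t : Fin (2 * R + 1), f (vt t) = ∑ t ∈ Finset.Icc (-(R : ℤ)) (R : ℤ), f t := by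
  apply Finset.sum_nbij (fun t : Fin (2 * R + 1) => vt t)
  · intro t _
    have := t.2
    rw [Finset.mem_Icc]
    unfold vt
    constructor <;> omega
  · intro t _ t' _ heq
    simp only [vt] at heq
    apply Fin.ext
    omega
  · intro s hs
    rw [Finset.coe_Icc, Set.mem_Icc] at hs
    refine ⟨⟨(s + R).toNat, by omega⟩, by simp, ?_⟩
    simp only [vt]
    omega
  · intro t _
    rfl

lemma sum_symm (R : ℕ) (f : ℤ → ℝ) :
    ∑ t ∈ Finset.Icc (-(R : ℤ)) (R : ℤ), f (-t) = ∑ t ∈ Finset.Icc (-(R : ℤ)) (R : ℤ), f t := by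
  apply Finset.sum_nbij (fun t : ℤ => -t)
  · intro t ht
    rw [Finset.mem_Icc] at ht ⊢
    constructor <;> omega
  · intro t _ t' _ heq
    simp only [neg_inj] at heq
    exact heq
  · intro s hs
    rw [Finset.coe_Icc, Set.mem_Icc] at hs
    refine ⟨-s, ?_, by simp⟩
    rw [Finset.coe_Icc, Set.mem_Icc]
    constructor <;> omega
  · intro t _
    rfl

/-- mean of `|x + ν| - |ν|` -/
lemma mean_bound (σ : ℝ) (hσ : 1 ≤ σ) (R : ℕ) (hR : σ ≤ R) (x : ℤ) :
    ∑ t ∈ Finset.Icc (-(R : ℤ)) (R : ℤ), h σ t / Z σ R * (|((x + t : ℤ) : ℝ)| - |(t : ℝ)|) ≤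
      6 * σ * min (((x : ℝ) / σ) ^ 2) |(x : ℝ) / σ| := by
  have hσ0 : 0 < σ := by linarith
  have hZ := Z_pos σ R
  have hsum1 : ∑ t ∈ Finset.Icc (-(R : ℤ)) (R : ℤ), h σ t / Z σ R = 1 := by
    rw [← Finset.sum_div]
    exact div_self hZ.ne'
  -- linear bound
  have lin : ∑ t ∈ Finset.Icc (-(R : ℤ)) (R : ℤ),
      h σ t / Z σ R * (|((x + t : ℤ) : ℝ)| - |(t : ℝ)|) ≤ |(x : ℝ)| := by
    calc _ ≤ ∑ t ∈ Finset.Icc (-(R : ℤ)) (R : ℤ), h σ t / Z σ R * |(x : ℝ)| := by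
          apply Finset.sum_le_sum
          intro t _
          apply mul_le_mul_of_nonneg_left _ (div_nonneg (h_pos σ t).le hZ.le)
          push_cast
          have := abs_add_le (x : ℝ) t
          linarith
      _ = |(x : ℝ)| := by rw [← Finset.sum_mul, hsum1, one_mul]
  -- quadratic bound
  have quad : ∑ t ∈ Finset.Icc (-(R : ℤ)) (R : ℤ),
      h σ t / Z σ R * (|((x + t : ℤ) : ℝ)| - |(t : ℝ)|) ≤ 6 * (x : ℝ) ^ 2 / σ := by
    have hs := sum_symm R (fun t => h σ t / Z σ R * (|((x + t : ℤ) : ℝ)| - |(t : ℝ)|))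
    simp only [h_neg] at hs
    set S := ∑ t ∈ Finset.Icc (-(R : ℤ)) (R : ℤ),
      h σ t / Z σ R * (|((x + t : ℤ) : ℝ)| - |(t : ℝ)|) with hSdef
    have h2 : 2 * S = ∑ t ∈ Finset.Icc (-(R : ℤ)) (R : ℤ),
        h σ t / Z σ R * (|((x + t : ℤ) : ℝ)| + |((x - t : ℤ) : ℝ)| - 2 * |(t : ℝ)|) := by
      have : 2 * S = S + ∑ t ∈ Finset.Icc (-(R : ℤ)) (R : ℤ),
          h σ t / Z σ R * (|((x + -t : ℤ) : ℝ)| - |((-t : ℤ) : ℝ)|) := by
        rw [hs]; ring
      rw [this, hSdef, ← Finset.sum_add_distrib]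
      apply Finset.sum_congr rfl
      intro t _
      push_cast
      rw [abs_neg, ← sub_eq_add_neg]
      ring
    have h3 : 2 * S ≤ ∑ t ∈ (Finset.Icc (-(R : ℤ)) (R : ℤ)).filter (fun t => |t| < |x|),
        1 / Z σ R * (2 * |(x : ℝ)|) := by
      rw [h2, Finset.sum_filter]
      apply Finset.sum_le_sum
      intro t _
      have hw0 : 0 ≤ h σ t / Z σ R := div_nonneg (h_pos σ t).le hZ.le
      have hw1 : h σ t / Z σ R ≤ 1 / Z σ R := by
        apply div_le_div_of_nonneg_right _ hZ.le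
        unfold h
        rw [Real.exp_le_one_iff]
        exact div_nonpos_of_nonpos_of_nonneg (by simp) hσ0.le
      have hmax : |((x + t : ℤ) : ℝ)| + |((x - t : ℤ) : ℝ)| - 2 * |(t : ℝ)| =
          2 * (max |(x : ℝ)| |(t : ℝ)| - |(t : ℝ)|) := by
        push_cast
        rcases le_total |(x : ℝ)| |(t : ℝ)| with hh | hh
        · rw [max_eq_right hh]
          rcases abs_cases ((x : ℝ) + t) with ⟨e1, f1⟩ | ⟨e1, f1⟩ <;>
          rcases abs_cases ((x : ℝ) - t) with ⟨e2, f2⟩ | ⟨e2, f2⟩ <;>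
          rcases abs_cases (x : ℝ) with ⟨e3, f3⟩ | ⟨e3, f3⟩ <;>
          rcases abs_cases (t : ℝ) with ⟨e4, f4⟩ | ⟨e4, f4⟩ <;> linarith
        · rw [max_eq_left hh]
          rcases abs_cases ((x : ℝ) + t) with ⟨e1, f1⟩ | ⟨e1, f1⟩ <;>
          rcases abs_cases ((x : ℝ) - t) with ⟨e2, f2⟩ | ⟨e2, f2⟩ <;>
          rcases abs_cases (x : ℝ) with ⟨e3, f3⟩ | ⟨e3, f3⟩ <;>
          rcases abs_cases (t : ℝ) with ⟨e4, f4⟩ | ⟨e4, f4⟩ <;> linarith
      rw [hmax]
      split_ifs with hlt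
      · have hlt' : |(t : ℝ)| < |(x : ℝ)| := by exact_mod_cast hlt
        rw [max_eq_left hlt'.le]
        have : 0 ≤ 2 * (|(x : ℝ)| - |(t : ℝ)|) := by linarith
        calc h σ t / Z σ R * (2 * (|(x : ℝ)| - |(t : ℝ)|)) ≤
            1 / Z σ R * (2 * (|(x : ℝ)| - |(t : ℝ)|)) := mul_le_mul_of_nonneg_right hw1 this
          _ ≤ 1 / Z σ R * (2 * |(x : ℝ)|) := by
              apply mul_le_mul_of_nonneg_left _ (by positivity)
              have := abs_nonneg (t : ℝ)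
              linarith
      · have hge : |(x : ℝ)| ≤ |(t : ℝ)| := by
          have : |x| ≤ |t| := not_lt.mp hlt
          exact_mod_cast this
        rw [max_eq_right hge]
        simp
    have hcard : (((Finset.Icc (-(R : ℤ)) (R : ℤ)).filter (fun t => |t| < |x|)).card : ℝ) ≤
        2 * |(x : ℝ)| := by
      have hle : ((Finset.Icc (-(R : ℤ)) (R : ℤ)).filter (fun t => |t| < |x|)).card ≤
          (Finset.Ioo (-|x|) |x|).card := by
        apply Finset.card_le_card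
        intro t ht
        rw [Finset.mem_filter] at ht
        rw [Finset.mem_Ioo]
        exact abs_lt.mp ht.2
      rw [Int.card_Ioo] at hle
      have h5 : (((|x| - -|x| - 1).toNat : ℕ) : ℝ) ≤ 2 * |(x : ℝ)| := by
        have h6 : (((|x| - -|x| - 1).toNat : ℕ) : ℤ) ≤ 2 * |x| := by
          have := abs_nonneg x
          omega
        exact_mod_cast h6
      exact le_trans (by exact_mod_cast hle) h5
    rw [Finset.sum_const, nsmul_eq_mul] at h3
    have hZl := Z_low σ hσ R hR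
    have he : Real.exp (-1) ≥ 1 / 3 := by
      have h7 := Real.exp_one_lt_d9
      rw [Real.exp_neg, ge_iff_le, one_div]
      apply inv_anti₀ (Real.exp_pos 1)
      linarith
    have hZ3 : σ / 3 ≤ Z σ R := by
      have : σ * (1 / 3) ≤ σ * Real.exp (-1) := mul_le_mul_of_nonneg_left he hσ0.le
      linarith
    have hinv : 1 / Z σ R ≤ 3 / σ := by
      rw [div_le_div_iff₀ hZ hσ0]
      linarith
    have hx0 := abs_nonneg (x : ℝ)
    have h8 : (((Finset.Icc (-(R : ℤ)) (R : ℤ)).filter (fun t => |t| < |x|)).card : ℝ) *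
        (1 / Z σ R * (2 * |(x : ℝ)|)) ≤ (2 * |(x : ℝ)|) * (3 / σ * (2 * |(x : ℝ)|)) := by
      apply mul_le_mul hcard _ (by positivity) (by positivity)
      exact mul_le_mul_of_nonneg_right hinv (by positivity)
    have h9 : (2 * |(x : ℝ)|) * (3 / σ * (2 * |(x : ℝ)|)) = 2 * (6 * (x : ℝ) ^ 2 / σ) := by
      rw [← sq_abs (x : ℝ)]
      ring
    linarith
  rw [show 6 * σ * min (((x : ℝ) / σ) ^ 2) |(x : ℝ) / σ| =
    min (6 * (x : ℝ) ^ 2 / σ) (6 * |(x : ℝ)|) by
      rw [mul_min_of_nonneg _ _ (by positivity : (0 : ℝ) ≤ 6 * σ), abs_div, abs_of_pos hσ0]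
      congr 1
      · field_simp
      · field_simp]
  apply le_min quad
  have := abs_nonneg (x : ℝ)
  linarith

end N38

open N38 in
open Classical in
/-- NOISE -/
theorem noise_38 : StNoise := by
  refine ⟨6, by norm_num, ?_⟩
  intro σ Gm δ hσ hδ
  have hσ0 : 0 < σ := by linarith
  obtain ⟨R, hR⟩ := exists_nat_ge (max σ (σ * (2 * Gm / δ)))
  have hR1 : σ ≤ R := le_trans (le_max_left _ _) hR
  have hR2 : σ * (2 * Gm / δ) ≤ R := le_trans (le_max_right _ _) hR
  have hZ := Z_pos σ R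
  have hZ' := Z_pos σ (Gm + R)
  have hsum1 : ∑ t ∈ Finset.Icc (-(R : ℤ)) (R : ℤ), h σ t / Z σ R = 1 := by
    rw [← Finset.sum_div]
    exact div_self hZ.ne'
  refine ⟨R, fun t => h σ (vt t) / Z σ R, fun t => h σ t / Z σ (Gm + R), ?_, ?_, ?_, ?_, ?_, ?_⟩
  · constructor
    · intro t
      exact div_pos (h_pos σ _) hZ
    · rw [sum_vt R (fun t => h σ t / Z σ R)]
      exact hsum1
  · have h1 : ∑ t ∈ univ.filter (fun t : Fin (2 * R + 1) => |vt t| ≤ ⌈4 * σ⌉), h σ (vt t) / Z σ R =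
        ∑ t ∈ (Finset.Icc (-(R : ℤ)) (R : ℤ)).filter (fun t => |t| ≤ ⌈4 * σ⌉), h σ t / Z σ R := by
      rw [Finset.sum_filter, Finset.sum_filter]
      exact sum_vt R (fun t => if |t| ≤ ⌈4 * σ⌉ then h σ t / Z σ R else 0)
    rw [h1]
    have h2 := Finset.sum_filter_add_sum_filter_not (Finset.Icc (-(R : ℤ)) (R : ℤ))
      (fun t => |t| ≤ ⌈4 * σ⌉) (fun t => h σ t / Z σ R)
    rw [hsum1] at h2
    have h3 := tail σ hσ R ⌈4 * σ⌉ (Int.le_ceil _)
    have h4 : ∑ t ∈ (Finset.Icc (-(R : ℤ)) (R : ℤ)).filter (fun t => ¬ |t| ≤ ⌈4 * σ⌉),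
        h σ t / Z σ R ≤ Real.exp (-4) := by
      rw [← Finset.sum_div, div_le_iff₀ hZ]
      exact h3
    have h5 : Real.exp (-4) ≤ 1 / 8 := by
      have h6 : (3 : ℝ) ≤ Real.exp 2 := by
        have := Real.add_one_le_exp (2 : ℝ)
        linarith
      have h7 : Real.exp 4 = Real.exp 2 * Real.exp 2 := by
        rw [← Real.exp_add]
        norm_num
      have h8 : (8 : ℝ) ≤ Real.exp 4 := by nlinarith
      rw [Real.exp_neg, one_div]
      exact inv_anti₀ (by norm_num) h8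
    linarith
  · intro t
    exact (div_pos (h_pos σ t) hZ').le
  · intro t _
    exact div_pos (h_pos σ t) hZ'
  · rw [← Finset.sum_div]
    exact le_of_eq (div_self hZ'.ne')
  · intro x _
    have hlog : ∀ t : ℤ, h σ t / Z σ R * Real.log (h σ t / Z σ R / (h σ (x + t) / Z σ (Gm + R))) =
        h σ t / Z σ R * Real.log (Z σ (Gm + R) / Z σ R) +
          1 / σ * (h σ t / Z σ R * (|((x + t : ℤ) : ℝ)| - |(t : ℝ)|)) := by
      intro t
      have e1 : h σ t / Z σ R / (h σ (x + t) / Z σ (Gm + R)) =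
          (Z σ (Gm + R) / Z σ R) * (h σ t / h σ (x + t)) := by
        have a1 := (h_pos σ (x + t)).ne'
        field_simp
      have e2 : Real.log (h σ t / h σ (x + t)) = 1 / σ * (|((x + t : ℤ) : ℝ)| - |(t : ℝ)|) := by
        unfold h
        rw [← Real.exp_sub, Real.log_exp]
        ring
      rw [e1, Real.log_mul (div_pos hZ' hZ).ne' (div_pos (h_pos σ _) (h_pos σ _)).ne', e2]
      ring
    have hconv := sum_vt R (fun t => h σ t / Z σ R *
      Real.log (h σ t / Z σ R / (h σ (x + t) / Z σ (Gm + R))))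
    calc ∑ t : Fin (2 * R + 1), h σ (vt t) / Z σ R *
          Real.log (h σ (vt t) / Z σ R / (h σ (x + vt t) / Z σ (Gm + R))) =
        ∑ t ∈ Finset.Icc (-(R : ℤ)) (R : ℤ), h σ t / Z σ R *
          Real.log (h σ t / Z σ R / (h σ (x + t) / Z σ (Gm + R))) := hconv
      _ = Real.log (Z σ (Gm + R) / Z σ R) + 1 / σ *
          ∑ t ∈ Finset.Icc (-(R : ℤ)) (R : ℤ),
            h σ t / Z σ R * (|((x + t : ℤ) : ℝ)| - |(t : ℝ)|) := by
          simp_rw [hlog]
          rw [Finset.sum_add_distrib, ← Finset.sum_mul, hsum1, one_mul, Finset.mul_sum]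
      _ ≤ δ + 1 / σ * (6 * σ * min (((x : ℝ) / σ) ^ 2) |(x : ℝ) / σ|) := by
          apply add_le_add
          · have h1 := Z_diff σ hσ R Gm
            have h2 : Real.log (Z σ (Gm + R) / Z σ R) ≤ Z σ (Gm + R) / Z σ R - 1 :=
              Real.log_le_sub_one_of_pos (div_pos hZ' hZ)
            have h3 : Z σ (Gm + R) / Z σ R - 1 ≤ 2 * Gm * Real.exp (-(R : ℝ) / σ) := by
              rw [sub_le_iff_le_add, div_le_iff₀ hZ]
              have hZ1 := Z_ge σ R
              have h4 : 0 ≤ 2 * Gm * Real.exp (-(R : ℝ) / σ) := by positivity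
              nlinarith
            have h5 : 2 * Gm * Real.exp (-(R : ℝ) / σ) ≤ δ := by
              rw [neg_div, Real.exp_neg]
              have h6 : 2 * Gm / δ ≤ Real.exp (R / σ) := by
                have h7 := Real.add_one_le_exp ((R : ℝ) / σ)
                have h8 : 2 * Gm / δ ≤ R / σ := by
                  rw [le_div_iff₀ hσ0]
                  linarith
                linarith
              rw [div_le_iff₀ hδ] at h6
              rw [← div_eq_mul_inv, div_le_iff₀ (Real.exp_pos _)]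
              linarith
            linarith
          · exact mul_le_mul_of_nonneg_left (mean_bound σ hσ R hR1 x) (by positivity)
      _ = 6 * min (((x : ℝ) / σ) ^ 2) |(x : ℝ) / σ| + δ := by
          field_simp
          ring

end Pool.Agent.SBW
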