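import Pool.Agent.Lib.SB3.Stmts74
import Pool.Agent.Lib.SB3.Ent3

/-!
SBW (helper7): Theorem G in law form, exact (leak free) version, arbitrary sparse sets of pairs.
Definitions and statements (as `Prop`s) of the modules. Everything is a finite sum.
-/

set_option autoImplicit false

namespace Pool.Agent.SBW

open Finset Pool.Agent.SB3

/-! ### finite probability spaces with weights -/

/-- a positive probability weight -/
structure Law {α : Type} [Fintype α] (W : α → ℝ) : Prop where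
  pos : ∀ s, 0 < W s
  sum : ∑ s, W s = 1

open Classical in
/-- mass of the class of `s` with respect to the label `f` -/
noncomputable def ms {α κ : Type} [Fintype α] (W : α → ℝ) (f : α → κ) (s : α) : ℝ :=
  ∑ s' ∈ univ.filter (fun s' => f s' = f s), W s'

open Classical in
/-- weighted average of `X` over the class of `s` -/
noncomputable def av {α κ : Type} [Fintype α] (W : α → ℝ) (f : α → κ) (X : α → ℝ) (s : α) : ℝ :=
  (∑ s' ∈ univ.filter (fun s' => f s' = f s), W s' * X s') / ms W f s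

/-- entropy of the label `f` -/
noncomputable def Hh {α κ : Type} [Fintype α] (W : α → ℝ) (f : α → κ) : ℝ :=
  ∑ s, W s * Real.log (1 / ms W f s)

/-- `g` is a function of `f` -/
def Ref {α κ κ' : Type} (f : α → κ) (g : α → κ') : Prop := ∀ s s', f s = f s' → g s = g s'

/-- BASIC: averages and entropies -/
def StBasic : Prop :=
  ∀ (α κ κ' : Type) (_ : Fintype α) (W : α → ℝ) (f : α → κ) (g : α → κ'), Law W →
    (∀ s, 0 < ms W f s ∧ ms W f s ≤ 1) ∧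
    (∀ (X h : α → ℝ), Ref f h →
      ∑ s, W s * (h s * av W f X s) = ∑ s, W s * (h s * X s)) ∧
    (∀ (X : α → ℝ), Ref f (av W f X)) ∧
    (∀ (X : α → ℝ) (B : ℝ), (∀ s, |X s| ≤ B) → ∀ s, |av W f X s| ≤ B) ∧
    (Ref f g → (∀ s, ms W f s ≤ ms W g s) ∧ Hh W g ≤ Hh W f)

/-- PIN: a binary variable `b`, a label `f` and a finer label `g` -/
def StPin : Prop :=
  ∀ (α κ κ' : Type) (_ : Fintype α) (W : α → ℝ) (f : α → κ) (g : α → κ') (b : α → Bool), Law W →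
    (∑ s, W s * (av W f (fun s => sgr (b s)) s) ^ 2 ≤
      8 * (Real.log 2 - (Hh W (fun s => (f s, b s)) - Hh W f))) ∧
    (Ref g f → ∑ s, W s * (av W g (fun s => sgr (b s)) s - av W f (fun s => sgr (b s)) s) ^ 2 ≤
      8 * ((Hh W (fun s => (f s, b s)) - Hh W f) - (Hh W (fun s => (g s, b s)) - Hh W g)))

/-- GIB: Gibbs' inequality -/
def StGib : Prop :=
  ∀ (α κ : Type) (_ : Fintype α) (W : α → ℝ) (f : α → κ) (T : Finset κ) (r : κ → ℝ), Law W →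
    (∀ s, f s ∈ T) → (∀ s, 0 < r (f s)) → (∀ v ∈ T, 0 ≤ r v) → ∑ v ∈ T, r v ≤ 1 →
    Hh W f ≤ ∑ s, W s * Real.log (1 / r (f s))

open Classical in
/-- WIN: the window lemma. `nu` is a coordinate of the sample point, independent of the rest, with
law `φ`; `up s t` = `s` with this coordinate replaced by `t`; `O = g0 + v nu`. If on the classes of
`f` in `bad` no window of radius `R1` has more than half of the mass, then revealing `O` after `f`
costs at least `1/4` more than the entropy of the noise there (and never less than it). -/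
def StWin : Prop :=
  ∀ (α κ τ : Type) (_ : Fintype α) (_ : Fintype τ) (W V : α → ℝ) (φ : τ → ℝ) (v : τ → ℤ)
    (nu : α → τ) (up : α → τ → α) (f : α → κ) (g0 : α → ℤ) (R1 : ℤ) (bad : α → Prop),
    Law W → Law φ → Function.Injective v →
    (∀ s, W s = V s * φ (nu s)) → (∀ s t, V (up s t) = V s) → (∀ s t, nu (up s t) = t) →
    (∀ s t t', up (up s t) t' = up s t') → (∀ s, up s (nu s) = s) →
    (∀ s t, f (up s t) = f s) → (∀ s t, g0 (up s t) = g0 s) → Ref f bad →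
    (7 / 8 : ℝ) ≤ ∑ t ∈ univ.filter (fun t => |v t| ≤ R1), φ t →
    (∀ s, bad s → ∀ x : ℤ,
      ∑ s' ∈ univ.filter (fun s' => f s' = f s ∧ |g0 s' + v (nu s') - x| ≤ R1), W s' ≤
        ms W f s / 2) →
    (1 / 4 : ℝ) * ∑ s ∈ univ.filter bad, W s ≤
      Hh W (fun s => (f s, g0 s + v (nu s))) - Hh W f - ∑ t, φ t * Real.log (1 / φ t)

open Classical in
/-- LOC: the local inequality for one pair. -/
def StLoc : Prop :=
  ∀ (α κ κ₁ κ₂ : Type) (_ : Fintype α) (W : α → ℝ) (f : α → κ) (g₁ : α → κ₁) (g₂ : α → κ₂)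
    (a b : α → Bool) (O v x : α → ℤ) (u : α → Prop) (D R1 : ℤ),
    Law W → 1 ≤ D → 0 ≤ R1 → Ref g₁ f → Ref g₂ f → Ref g₁ b → Ref g₁ O → Ref g₂ a →
    Ref g₂ (fun s => O s + sgi (a s) * sgi (b s) * v s) → Ref f v → Ref f x → Ref f u →
    (∀ s, u s → D ≤ |v s|) →
    (∀ s, u s → |av W f (fun s => sgr (a s)) s| ≤ 1 / 2) →
    (∀ s, u s → |av W f (fun s => sgr (b s)) s| ≤ 1 / 2) →
    (D / (2 * R1 + 4 * D) : ℝ) / 4 *
        ∑ s ∈ univ.filter (fun s => u s ∧ |O s - x s| ≤ R1), W s ≤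
      2 * ∑ s ∈ univ.filter u, W s *
        |av W g₁ (fun s => sgr (a s)) s - av W f (fun s => sgr (a s)) s| +
      2 * ∑ s ∈ univ.filter u, W s *
        |av W g₂ (fun s => sgr (b s)) s - av W f (fun s => sgr (b s)) s|

/-! ### the system -/

/-- structure of the sums `G j = g K j`, `j < 2 K`: `g p j` is the part of `G j` which depends only
on `(y_{<p}, z)`; `c p q` is the coefficient of `η_p ζ_q` in `G (p + q)`. -/
structure Str (K : ℕ) (g c e : ℕ → ℕ → Y K → Y K → ℤ) : Prop where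
  g_dep : ∀ p j y y' z, pre p y = pre p y' → g p j y z = g p j y' z
  step : ∀ p q y z, p < K → q < K →
    g (p + 1) (p + q) y z =
      g p (p + q) y z + sgi (bit y p) * sgi (bit z q) * c p q y z + e p q y z
  low : ∀ p j y z, p ≤ K → j < p → g p j y z = g K j y z
  c_dep : ∀ p q y y' z z', pre p y = pre p y' → pre q z = pre q z' → c p q y z = c p q y' z'
  e_dep : ∀ p q y y' z z', pre (p + 1) y = pre (p + 1) y' → pre q z = pre q z' →
    e p q y z = e p q y' z'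

/-- sample points -/
abbrev Om (K R : ℕ) : Type := Y K × Y K × (Fin (2 * K) → Fin (2 * R + 1))

/-- value of a noise coordinate -/
def vt {R : ℕ} (t : Fin (2 * R + 1)) : ℤ := ((t : ℕ) : ℤ) - R

/-- value of the noise -/
def nz {K R : ℕ} (ν : Fin (2 * K) → Fin (2 * R + 1)) (j : ℕ) : ℤ :=
  if h : j < 2 * K then vt (ν ⟨j, h⟩) else 0

/-- the weight of a sample point -/
noncomputable def Wt {K R : ℕ} (ρ : Y K × Y K → ℝ) (φ : Fin (2 * R + 1) → ℝ) (ω : Om K R) : ℝ :=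
  ρ (ω.1, ω.2.1) * ∏ j, φ (ω.2.2 j)

/-- noisy observation of the first part -/
def Ob {K R : ℕ} (g : ℕ → ℕ → Y K → Y K → ℤ) (p : ℕ) (ω : Om K R) (j : ℕ) : ℤ :=
  g p j ω.1 ω.2.1 + nz ω.2.2 j

/-- label: the first `p` coordinates of `y`, the first `q` of `z`, the first `m` observations -/
def lab {K R : ℕ} (g : ℕ → ℕ → Y K → Y K → ℤ) (p q m : ℕ) (ω : Om K R) :
    Y K × Y K × (Fin (2 * K) → ℤ) :=
  (pre p ω.1, pre q ω.2.1, fun j : Fin (2 * K) => if (j : ℕ) < m then Ob g p ω j else 0)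

/-- LAB: the relations between the labels -/
def StLab : Prop :=
  ∀ (K R : ℕ) (g c e : ℕ → ℕ → Y K → Y K → ℤ), Str K g c e →
    (∀ p q q' m m', q' ≤ q → m' ≤ m →
      Ref (lab (K := K) (R := R) g p q m) (lab (K := K) (R := R) g p q' m')) ∧
    (∀ p q m, q < K →
      Ref (fun ω : Om K R => (lab g p q m ω, bit ω.2.1 q)) (lab g p (q + 1) m) ∧
      Ref (lab g p (q + 1) m) (fun ω : Om K R => (lab g p q m ω, bit ω.2.1 q))) ∧
    (∀ p q m, p < K → q ≤ K → (m ≤ p + q ∨ q = K) →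
      Ref (fun ω : Om K R => (lab g p q m ω, bit ω.1 p)) (lab g (p + 1) q m) ∧
      Ref (lab g (p + 1) q m) (fun ω : Om K R => (lab g p q m ω, bit ω.1 p))) ∧
    (∀ p q, p < K → q < K →
      Ref (lab (K := K) (R := R) g (p + 1) q (p + q + 1)) (lab g p q (p + q)) ∧
      Ref (fun ω : Om K R => (lab g p (q + 1) (p + q) ω, Ob g p ω (p + q)))
        (lab g p (q + 1) (p + q + 1)) ∧
      Ref (lab g p (q + 1) (p + q + 1))
        (fun ω : Om K R => (lab g p (q + 1) (p + q) ω, Ob g p ω (p + q))) ∧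
      Ref (lab g (p + 1) q (p + q + 1))
        (fun ω : Om K R => Ob g p ω (p + q) +
          sgi (bit ω.1 p) * sgi (bit ω.2.1 q) * c p q ω.1 ω.2.1)) ∧
    (∀ p q, p ≤ K → q ≤ K → Ref (lab (K := K) (R := R) g K q (2 * K)) (lab g p q (p + q)))

/-- PROD: masses and entropies of the labels with all of `z` -/
def StProd : Prop :=
  ∀ (K R : ℕ) (g c e : ℕ → ℕ → Y K → Y K → ℤ) (ρ : Y K × Y K → ℝ) (φ : Fin (2 * R + 1) → ℝ),
    Str K g c e → Law ρ → Law φ →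
    Law (Wt (K := K) (R := R) ρ φ) ∧
    (∀ X : Y K × Y K → ℝ, ∑ ω : Om K R, Wt ρ φ ω * X (ω.1, ω.2.1) = ∑ e, ρ e * X e) ∧
    (∀ (X : Y K × Y K → Fin (2 * R + 1) → ℝ) (j : Fin (2 * K)),
      ∑ ω : Om K R, Wt ρ φ ω * X (ω.1, ω.2.1) (ω.2.2 j) = ∑ e, ρ e * ∑ t, φ t * X e t) ∧
    ∀ p m, m ≤ 2 * K →
      Hh (Wt (K := K) (R := R) ρ φ) (lab g p K m) =
        Hh ρ (fun e => (pre p e.1, e.2)) + m * ∑ t, φ t * Real.log (1 / φ t)

/-- relative entropy with respect to the uniform distribution -/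
noncomputable def kl {K : ℕ} (ρ : Y K × Y K → ℝ) : ℝ := ∑ e, ρ e * Real.log (4 ^ K * ρ e)

/-- cost of hiding `G j` behind the noise, `r` = reference law of the observations -/
noncomputable def cost {K R : ℕ} (ρ : Y K × Y K → ℝ) (φ : Fin (2 * R + 1) → ℝ) (r : ℤ → ℝ)
    (g : ℕ → ℕ → Y K → Y K → ℤ) : ℝ :=
  ∑ j ∈ range (2 * K), ∑ e, ρ e * ∑ t, φ t * Real.log (φ t / r (g K j e.1 e.2 + vt t))

/-- budget of the first coordinates -/
noncomputable def dq {K : ℕ} (ρ : Y K × Y K → ℝ) (p : ℕ) : ℝ :=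
  Real.log 2 - (Hh ρ (fun e => (pre (p + 1) e.1, e.2)) - Hh ρ (fun e => (pre p e.1, e.2)))

/-- budget of the second coordinates -/
noncomputable def eq' {K R : ℕ} (ρ : Y K × Y K → ℝ) (φ : Fin (2 * R + 1) → ℝ)
    (g : ℕ → ℕ → Y K → Y K → ℤ) (q : ℕ) : ℝ :=
  Real.log 2 - (Hh (Wt (K := K) (R := R) ρ φ) (lab g K (q + 1) (2 * K)) -
    Hh (Wt (K := K) (R := R) ρ φ) (lab g K q (2 * K)))

/-- BUDG: the budgets -/
def StBudg : Prop :=
  ∀ (K R R' : ℕ) (g c e : ℕ → ℕ → Y K → Y K → ℤ) (ρ : Y K × Y K → ℝ) (φ : Fin (2 * R + 1) → ℝ)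
    (r : ℤ → ℝ), Str K g c e → Law ρ → Law φ →
    (∀ j < 2 * K, ∀ y z, |g K j y z| + R ≤ R') → (∀ t, 0 ≤ r t) →
    (∀ t : ℤ, |t| ≤ R' → 0 < r t) → ∑ t ∈ Finset.Icc (-(R' : ℤ)) R', r t ≤ 1 →
    (∀ p < K, 0 ≤ dq ρ p) ∧ ∑ p ∈ range K, dq ρ p ≤ kl ρ ∧
    (∀ q < K, 0 ≤ eq' ρ φ g q) ∧ ∑ q ∈ range K, eq' ρ φ g q ≤ kl ρ + cost ρ φ r g

/-- CHAINS: the chain rules in terms of `E p q m = Hh (lab p q m)` -/
def StChains : Prop :=
  ∀ (K R : ℕ) (g c e : ℕ → ℕ → Y K → Y K → ℤ) (ρ : Y K × Y K → ℝ) (φ : Fin (2 * R + 1) → ℝ),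
    Str K g c e → Law ρ → Law φ →
    let E : ℕ → ℕ → ℕ → ℝ := fun p q m => Hh (Wt (K := K) (R := R) ρ φ) (lab g p q m)
    let hf : ℝ := ∑ t, φ t * Real.log (1 / φ t)
    (∀ p q, p < K → q < K → Real.log 2 - (E (p + 1) q (p + q) - E p q (p + q)) ≤ dq ρ p) ∧
    (∀ p q, p < K → q < K → Real.log 2 - (E p (q + 1) (p + q) - E p q (p + q)) ≤ eq' ρ φ g q) ∧
    (∀ p < K, ∑ q ∈ range K, ((E (p + 1) q (p + q) - E p q (p + q)) -
      (E (p + 1) (q + 1) (p + q + 1) - E p (q + 1) (p + q + 1))) ≤ dq ρ p) ∧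
    (∀ q < K, ∑ p ∈ range K, ((E p (q + 1) (p + q) - E p q (p + q)) -
      (E (p + 1) (q + 1) (p + q + 1) - E (p + 1) q (p + q + 1))) ≤ eq' ρ φ g q) ∧
    (∀ p < K, ∑ q ∈ range K, (E p (q + 1) (p + q + 1) - E p (q + 1) (p + q) - hf) ≤
      ∑ q ∈ range K, eq' ρ φ g q)

open Classical in
/-- PAIR: what comes out for one pair -/
def StPair : Prop :=
  ∃ C : ℝ, 0 < C ∧
  ∀ (K R : ℕ) (g c e : ℕ → ℕ → Y K → Y K → ℤ) (ρ : Y K × Y K → ℝ) (φ : Fin (2 * R + 1) → ℝ)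
    (D R1 : ℤ) (w : ℕ → ℕ → Y K → Y K → Prop),
    Str K g c e → Law ρ → Law φ → 1 ≤ D → 0 ≤ R1 →
    (7 / 8 : ℝ) ≤ ∑ t ∈ univ.filter (fun t : Fin (2 * R + 1) => |vt t| ≤ R1), φ t →
    (∀ p q y y' z z', pre p y = pre p y' → pre q z = pre q z' → (w p q y z ↔ w p q y' z')) →
    (∀ p q y z, w p q y z → D ≤ |c p q y z|) →
    let E : ℕ → ℕ → ℕ → ℝ := fun p q m => Hh (Wt (K := K) (R := R) ρ φ) (lab g p q m)
    let hf : ℝ := ∑ t, φ t * Real.log (1 / φ t)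
    ∀ p q, p < K → q < K →
      ∑ e ∈ univ.filter (fun e : Y K × Y K => w p q e.1 e.2), ρ e ≤
        C * (((2 * R1 + 4 * D) / D : ℝ) ^ 2 *
          (((E (p + 1) q (p + q) - E p q (p + q)) -
            (E (p + 1) (q + 1) (p + q + 1) - E p (q + 1) (p + q + 1))) +
          ((E p (q + 1) (p + q) - E p q (p + q)) -
            (E (p + 1) (q + 1) (p + q + 1) - E (p + 1) q (p + q + 1)))) +
        (Real.log 2 - (E (p + 1) q (p + q) - E p q (p + q))) +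
        (Real.log 2 - (E p (q + 1) (p + q) - E p q (p + q))) +
        (E p (q + 1) (p + q + 1) - E p (q + 1) (p + q) - hf))

open Classical in
/-- W0: the integer version with an abstract noise -/
def StW0 : Prop :=
  ∃ C : ℝ, 0 < C ∧
  ∀ (K R R' : ℕ) (g c e : ℕ → ℕ → Y K → Y K → ℤ) (ρ : Y K × Y K → ℝ) (φ : Fin (2 * R + 1) → ℝ)
    (r : ℤ → ℝ) (D R1 : ℤ) (w : ℕ → ℕ → Y K → Y K → Prop),
    Str K g c e → Law ρ → Law φ → 1 ≤ D → 0 ≤ R1 →
    (7 / 8 : ℝ) ≤ ∑ t ∈ univ.filter (fun t : Fin (2 * R + 1) => |vt t| ≤ R1), φ t →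
    (∀ j < 2 * K, ∀ y z, |g K j y z| + R ≤ R') → (∀ t, 0 ≤ r t) →
    (∀ t : ℤ, |t| ≤ R' → 0 < r t) → ∑ t ∈ Finset.Icc (-(R' : ℤ)) R', r t ≤ 1 →
    (∀ p q y y' z z', pre p y = pre p y' → pre q z = pre q z' → (w p q y z ↔ w p q y' z')) →
    (∀ p q y z, w p q y z → D ≤ |c p q y z|) →
    ∑ p ∈ range K, ∑ q ∈ range K,
        ∑ e ∈ univ.filter (fun e : Y K × Y K => w p q e.1 e.2), ρ e ≤
      C * (((R1 : ℝ) / D + 1) ^ 2 + K) * (kl ρ + (kl ρ + cost ρ φ r g))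

open Classical in
/-- NOISE: the truncated two sided geometric law, and the reference law -/
def StNoise : Prop :=
  ∃ C : ℝ, 0 < C ∧ ∀ (σ : ℝ) (Gm : ℕ) (δ : ℝ), 1 ≤ σ → 0 < δ → ∃ (R : ℕ)
    (φ : Fin (2 * R + 1) → ℝ) (r : ℤ → ℝ), Law φ ∧
    (7 / 8 : ℝ) ≤ ∑ t ∈ univ.filter (fun t : Fin (2 * R + 1) => |vt t| ≤ ⌈4 * σ⌉), φ t ∧
    (∀ t, 0 ≤ r t) ∧ (∀ t : ℤ, |t| ≤ Gm + R → 0 < r t) ∧
    ∑ t ∈ Finset.Icc (-((Gm + R : ℕ) : ℤ)) ((Gm + R : ℕ) : ℤ), r t ≤ 1 ∧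
    ∀ x : ℤ, |x| ≤ Gm → ∑ t, φ t * Real.log (φ t / r (x + vt t)) ≤
      C * min ((x / σ) ^ 2) |x / σ| + δ

/-! ### real functions -/

/-- the same structure for real functions -/
structure StrR (K : ℕ) (g c e : ℕ → ℕ → Y K → Y K → ℝ) : Prop where
  g_dep : ∀ p j y y' z, pre p y = pre p y' → g p j y z = g p j y' z
  step : ∀ p q y z, p < K → q < K →
    g (p + 1) (p + q) y z =
      g p (p + q) y z + sgr (bit y p) * sgr (bit z q) * c p q y z + e p q y z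
  low : ∀ p j y z, p ≤ K → j < p → g p j y z = g K j y z
  c_dep : ∀ p q y y' z z', pre p y = pre p y' → pre q z = pre q z' → c p q y z = c p q y' z'
  e_dep : ∀ p q y y' z z', pre (p + 1) y = pre (p + 1) y' → pre q z = pre q z' →
    e p q y z = e p q y' z'

open Classical in
/-- W: the final form -/
def StW : Prop :=
  ∃ C : ℝ, 0 < C ∧
  ∀ (K : ℕ) (g c e : ℕ → ℕ → Y K → Y K → ℝ) (ρ : Y K × Y K → ℝ) (w : ℕ → ℕ → Y K → Y K → Prop),
    1 ≤ K → StrR K g c e → Law ρ →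
    (∀ p q y y' z z', pre p y = pre p y' → pre q z = pre q z' → (w p q y z ↔ w p q y' z')) →
    (∀ p q y z, w p q y z → 1 ≤ |c p q y z|) →
    ∑ p ∈ range K, ∑ q ∈ range K,
        ∑ e ∈ univ.filter (fun e : Y K × Y K => w p q e.1 e.2), ρ e ≤
      C * K * (kl ρ + ∑ j ∈ range (2 * K), ∑ e, ρ e *
        min ((g K j e.1 e.2 / Real.sqrt K) ^ 2) |g K j e.1 e.2 / Real.sqrt K|)

end Pool.Agent.SBW
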