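import Pool.Agent.Lib.SBW.Stmts7
import Pool.Agent.Lib.MP_a7b2aa_an.SBT.Eyb33

/-!
SBW, top part (helper46), A: the exponential martingale, the inequality between `min (t ^ 2) |t|`
and `log (cosh t)`, and the exponential form of Theorem W.
-/

set_option autoImplicit false

namespace Pool.Agent.SBW.T46

open Finset Pool.Agent.SB3 Pool.Agent.SBT Pool.Agent.SBW

/-! ### the exponential martingale -/

theorem mart46 {L : ℕ} (φ : Y L → ℝ) :
    ∑ x : Y L, Real.exp (φ x) *
        ∏ i ∈ range L, (1 / Real.cosh (Ey i (fun x' => sgr (bit x' i) * φ x') x)) =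
      ∑ x : Y L, Real.exp (Ey 0 φ x) := by
  have key : ∀ k, k ≤ L → ∑ x : Y L, Real.exp (Ey k φ x) *
        ∏ i ∈ range k, (1 / Real.cosh (Ey i (fun x' => sgr (bit x' i) * φ x') x)) =
      ∑ x : Y L, Real.exp (Ey 0 φ x) := by
    intro k
    induction k with
    | zero =>
      intro _
      simp
    | succ k ih =>
      intro hk
      have hk' : k < L := hk
      rw [← ih (by omega)]
      have hstep : ∀ x : Y L, Real.exp (Ey (k + 1) φ x) *
          ∏ i ∈ range (k + 1), (1 / Real.cosh (Ey i (fun x' => sgr (bit x' i) * φ x') x)) =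
          Real.exp (Ey k φ x + sgr (bit x k) * Ey k (fun x' => sgr (bit x' k) * φ x') x) *
          ((∏ i ∈ range k, (1 / Real.cosh (Ey i (fun x' => sgr (bit x' i) * φ x') x))) *
            (1 / Real.cosh (Ey k (fun x' => sgr (bit x' k) * φ x') x))) := by
        intro x
        rw [prod_range_succ, ← Ey_diff33 hk' φ x]
        congr 2
        ring
      rw [Finset.sum_congr rfl (fun x _ => hstep x)]
      set D : Y L → ℝ := fun x => Ey k (fun x' => sgr (bit x' k) * φ x') x with hD
      set P : Y L → ℝ := fun x =>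
        ∏ i ∈ range k, (1 / Real.cosh (Ey i (fun x' => sgr (bit x' i) * φ x') x)) with hP
      have hDf : ∀ x, D (fl33 k x) = D x := by
        intro x
        exact Ey_pre33 _ (pre_fl33 le_rfl x)
      have hPf : ∀ x, P (fl33 k x) = P x := by
        intro x
        rw [hP]
        apply Finset.prod_congr rfl
        intro i hi
        rw [Finset.mem_range] at hi
        rw [Ey_pre33 _ (pre_fl33 (by omega : i ≤ k) x)]
      have hEf : ∀ x, Ey k φ (fl33 k x) = Ey k φ x := by
        intro x
        exact Ey_pre33 _ (pre_fl33 le_rfl x)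
      have h1 : ∑ x : Y L, Real.exp (Ey k φ x + sgr (bit x k) * D x) * (P x * (1 / Real.cosh (D x)))
          = ∑ x : Y L, Real.exp (Ey k φ x - sgr (bit x k) * D x) *
            (P x * (1 / Real.cosh (D x))) := by
        rw [← sum_fl33 hk' (fun x => Real.exp (Ey k φ x + sgr (bit x k) * D x) *
          (P x * (1 / Real.cosh (D x))))]
        apply Finset.sum_congr rfl
        intro x _
        rw [hDf, hPf, hEf, bit_fl33 hk', sgr_not33]
        congr 2
        ring
      have h2 : ∀ x : Y L, Real.exp (Ey k φ x + sgr (bit x k) * D x) *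
            (P x * (1 / Real.cosh (D x))) +
          Real.exp (Ey k φ x - sgr (bit x k) * D x) * (P x * (1 / Real.cosh (D x))) =
          2 * (Real.exp (Ey k φ x) * P x) := by
        intro x
        have hc : Real.exp (sgr (bit x k) * D x) + Real.exp (-(sgr (bit x k) * D x)) =
            2 * Real.cosh (D x) := by
          have h3 : Real.cosh (sgr (bit x k) * D x) = Real.cosh (D x) := by
            rcases Ent3.sgr_cases (bit x k) with h | h
            · rw [h, one_mul]
            · rw [h, neg_one_mul, Real.cosh_neg]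
          rw [← h3, Real.cosh_eq]
          ring
        have hpos : 0 < Real.cosh (D x) := Real.cosh_pos _
        rw [sub_eq_add_neg, Real.exp_add, Real.exp_add]
        have : Real.exp (Ey k φ x) * Real.exp (sgr (bit x k) * D x) * (P x * (1 / Real.cosh (D x))) +
            Real.exp (Ey k φ x) * Real.exp (-(sgr (bit x k) * D x)) *
              (P x * (1 / Real.cosh (D x))) =
            Real.exp (Ey k φ x) * P x * (1 / Real.cosh (D x)) *
              (Real.exp (sgr (bit x k) * D x) + Real.exp (-(sgr (bit x k) * D x))) := by ring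
        rw [this, hc]
        field_simp
      have h3 : 2 * ∑ x : Y L, Real.exp (Ey k φ x + sgr (bit x k) * D x) *
          (P x * (1 / Real.cosh (D x))) = 2 * ∑ x : Y L, Real.exp (Ey k φ x) * P x := by
        rw [two_mul]
        nth_rewrite 2 [h1]
        rw [← Finset.sum_add_distrib, Finset.sum_congr rfl (fun x _ => h2 x), ← Finset.mul_sum]
      linarith
  have h := key L le_rfl
  rw [← h]
  apply Finset.sum_congr rfl
  intro x _
  rw [Ey_top33 le_rfl]

/-! ### `min (t ^ 2) |t| ≤ 4 * log (cosh t)` -/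

theorem cosh_ge46 (t : ℝ) : 1 + t ^ 2 / 2 ≤ Real.cosh t := by
  have h1 : Real.cosh t = 1 + 2 * Real.sinh (|t| / 2) ^ 2 := by
    have h2 : t = 2 * (t / 2) := by ring
    have h3 : Real.cosh t = Real.cosh (2 * (|t| / 2)) := by
      rw [← Real.cosh_abs]
      congr 1
      ring
    rw [h3, Real.cosh_two_mul, Real.cosh_sq]
    ring
  have h2 : |t| / 2 ≤ Real.sinh (|t| / 2) := Real.self_le_sinh_iff.mpr (by positivity)
  have h3 : (|t| / 2) ^ 2 ≤ Real.sinh (|t| / 2) ^ 2 := pow_le_pow_left₀ (by positivity) h2 2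
  have h4 : (|t| / 2) ^ 2 = t ^ 2 / 4 := by
    rw [div_pow, sq_abs]
    norm_num
  rw [h1]
  rw [h4] at h3
  linarith

theorem logcosh46 (t : ℝ) : min (t ^ 2) |t| ≤ 4 * Real.log (Real.cosh t) := by
  have hc : 0 < Real.cosh t := Real.cosh_pos t
  by_cases h : |t| ≤ 1
  · have h2 : t ^ 2 ≤ 1 := by
      rw [← sq_abs]
      have := abs_nonneg t
      nlinarith
    have h1 : 1 + t ^ 2 / 2 ≤ Real.cosh t := cosh_ge46 t
    have h3 : 1 - 1 / (1 + t ^ 2 / 2) ≤ Real.log (1 + t ^ 2 / 2) := by
      have := Real.one_sub_inv_le_log_of_pos (by positivity : (0 : ℝ) < 1 + t ^ 2 / 2)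
      rw [one_div]
      exact this
    have h4 : Real.log (1 + t ^ 2 / 2) ≤ Real.log (Real.cosh t) :=
      Real.log_le_log (by positivity) h1
    have h5 : t ^ 2 / 3 ≤ 1 - 1 / (1 + t ^ 2 / 2) := by
      have hp : (0 : ℝ) < 1 + t ^ 2 / 2 := by positivity
      have : 1 - 1 / (1 + t ^ 2 / 2) = (t ^ 2 / 2) / (1 + t ^ 2 / 2) := by
        field_simp
        ring
      rw [this, le_div_iff₀ hp]
      nlinarith [sq_nonneg t]
    have h6 : min (t ^ 2) |t| ≤ t ^ 2 := min_le_left _ _
    nlinarith [sq_nonneg t]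
  · push Not at h
    have h1 : Real.exp |t| / 2 ≤ Real.cosh t := by
      rw [← Real.cosh_abs, Real.cosh_eq]
      have := Real.exp_pos (-|t|)
      linarith
    have h2 : Real.log (Real.exp |t| / 2) ≤ Real.log (Real.cosh t) :=
      Real.log_le_log (by positivity) h1
    rw [Real.log_div (by positivity) (by norm_num), Real.log_exp] at h2
    have h3 := Real.log_two_lt_d9
    have h6 : min (t ^ 2) |t| ≤ |t| := min_le_right _ _
    linarith

/-! ### exponential form -/

theorem kl_nonneg46 {K : ℕ} (ρ : Y K × Y K → ℝ) (hρ : Law ρ) : 0 ≤ kl ρ := by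
  unfold kl
  have h1 : ∀ e : Y K × Y K, ρ e - 1 / 4 ^ K ≤ ρ e * Real.log (4 ^ K * ρ e) := by
    intro e
    have hp := hρ.pos e
    have h4 : (0 : ℝ) < 4 ^ K := by positivity
    have h := Real.one_sub_inv_le_log_of_pos (mul_pos h4 hp)
    have h2 : ρ e * (1 - (4 ^ K * ρ e)⁻¹) ≤ ρ e * Real.log (4 ^ K * ρ e) :=
      mul_le_mul_of_nonneg_left h hp.le
    have h3 : ρ e * (1 - (4 ^ K * ρ e)⁻¹) = ρ e - 1 / 4 ^ K := by
      field_simp
    rw [h3] at h2
    exact h2
  have h2 := Finset.sum_le_sum (fun e (_ : e ∈ (univ : Finset (Y K × Y K))) => h1 e)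
  have h3 : ∑ e : Y K × Y K, (ρ e - 1 / 4 ^ K) = 0 := by
    rw [Finset.sum_sub_distrib, hρ.sum, Finset.sum_const, Finset.card_univ, nsmul_eq_mul]
    have hcard : (Fintype.card (Y K × Y K) : ℝ) = 4 ^ K := by
      rw [Fintype.card_prod]
      simp only [Fintype.card_pi, Fintype.card_bool, Finset.prod_const, Finset.card_univ,
        Fintype.card_fin]
      push_cast
      rw [← mul_pow]
      norm_num
    rw [hcard]
    field_simp
    norm_num
  linarith

open Classical in
/-- number of active pairs -/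
noncomputable def Nw {K : ℕ} (w : ℕ → ℕ → Y K → Y K → Prop) (y z : Y K) : ℝ :=
  ∑ p ∈ range K, ∑ q ∈ range K, if w p q y z then (1 : ℝ) else 0

theorem card46 (K : ℕ) : (Fintype.card (Y K × Y K) : ℝ) = 4 ^ K := by
  rw [Fintype.card_prod]
  simp only [Fintype.card_pi, Fintype.card_bool, Finset.prod_const, Finset.card_univ,
    Fintype.card_fin]
  push_cast
  rw [← mul_pow]
  norm_num

/-- exponential form of W -/
theorem expo46 (hW : StW) : ∃ C : ℝ, 0 < C ∧
    ∀ (K : ℕ) (g c e : ℕ → ℕ → Y K → Y K → ℝ) (w : ℕ → ℕ → Y K → Y K → Prop),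
    1 ≤ K → StrR K g c e →
    (∀ p q y y' z z', pre p y = pre p y' → pre q z = pre q z' → (w p q y z ↔ w p q y' z')) →
    (∀ p q y z, w p q y z → 1 ≤ |c p q y z|) →
    ∑ y : Y K, ∑ z : Y K, Real.exp (Nw w y z / (C * K)) *
      ∏ j ∈ range (2 * K), (1 / Real.cosh (g K j y z / Real.sqrt K)) ≤ 4 ^ K := by
  classical
  obtain ⟨C, hC, hW⟩ := hW
  refine ⟨4 * C, by positivity, ?_⟩
  intro K g c e w hK hStr hw hc
  have hKpos : (0 : ℝ) < K := by exact_mod_cast hK
  -- the exponent
  set Ys : Y K × Y K → ℝ := fun s =>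
    ∑ j ∈ range (2 * K), Real.log (Real.cosh (g K j s.1 s.2 / Real.sqrt K)) with hYs
  set f : Y K × Y K → ℝ := fun s => Nw w s.1 s.2 / (4 * C * K) - Ys s with hf
  have hterm : ∀ y z : Y K, Real.exp (Nw w y z / (4 * C * K)) *
      ∏ j ∈ range (2 * K), (1 / Real.cosh (g K j y z / Real.sqrt K)) = Real.exp (f (y, z)) := by
    intro y z
    rw [hf]
    simp only
    rw [Real.exp_sub, hYs]
    simp only
    rw [Real.exp_sum]
    have : ∏ j ∈ range (2 * K), Real.exp (Real.log (Real.cosh (g K j y z / Real.sqrt K))) =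
        ∏ j ∈ range (2 * K), Real.cosh (g K j y z / Real.sqrt K) := by
      apply Finset.prod_congr rfl
      intro j _
      rw [Real.exp_log (Real.cosh_pos _)]
    rw [this, div_eq_mul_inv (Real.exp _), ← Finset.prod_inv_distrib]
    simp only [one_div]
  have hsum : ∑ y : Y K, ∑ z : Y K, Real.exp (Nw w y z / (4 * C * K)) *
      ∏ j ∈ range (2 * K), (1 / Real.cosh (g K j y z / Real.sqrt K)) =
      ∑ s : Y K × Y K, Real.exp (f s) := by
    rw [Fintype.sum_prod_type]
    apply Finset.sum_congr rfl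
    intro y _
    apply Finset.sum_congr rfl
    intro z _
    exact hterm y z
  rw [hsum]
  set Z : ℝ := ∑ s : Y K × Y K, Real.exp (f s) with hZ
  have hne : Nonempty (Y K × Y K) := ⟨(fun _ => true, fun _ => true)⟩
  have hZpos : 0 < Z := Finset.sum_pos (fun s _ => Real.exp_pos _) univ_nonempty
  -- the Gibbs law
  set ρ : Y K × Y K → ℝ := fun s => Real.exp (f s) / Z with hρdef
  have hρ : Law ρ := by
    refine ⟨fun s => div_pos (Real.exp_pos _) hZpos, ?_⟩
    rw [hρdef]
    simp only
    rw [← Finset.sum_div]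
    exact div_self hZpos.ne'
  have hkl : kl ρ = (∑ s, ρ s * f s) - Real.log (Z / 4 ^ K) := by
    unfold kl
    have h1 : ∀ s : Y K × Y K, ρ s * Real.log (4 ^ K * ρ s) =
        ρ s * f s - ρ s * Real.log (Z / 4 ^ K) := by
      intro s
      rw [← mul_sub]
      congr 1
      rw [hρdef]
      simp only
      rw [Real.log_mul (by positivity) (div_pos (Real.exp_pos _) hZpos).ne',
        Real.log_div (Real.exp_pos _).ne' hZpos.ne', Real.log_exp,
        Real.log_div hZpos.ne' (by positivity)]
      ring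
    rw [Finset.sum_congr rfl (fun s _ => h1 s), Finset.sum_sub_distrib, ← Finset.sum_mul, hρ.sum,
      one_mul]
  have hmain := hW K g c e ρ w hK hStr hρ hw hc
  have hN : ∑ p ∈ range K, ∑ q ∈ range K,
        ∑ s ∈ univ.filter (fun s : Y K × Y K => w p q s.1 s.2), ρ s =
      ∑ s, ρ s * Nw w s.1 s.2 := by
    have h1 : ∀ s : Y K × Y K, ρ s * Nw w s.1 s.2 =
        ∑ p ∈ range K, ∑ q ∈ range K, if w p q s.1 s.2 then ρ s else 0 := by
      intro s
      unfold Nw
      rw [Finset.mul_sum]
      apply Finset.sum_congr rfl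
      intro p _
      rw [Finset.mul_sum]
      apply Finset.sum_congr rfl
      intro q _
      split_ifs <;> simp
    rw [Finset.sum_congr rfl (fun s _ => h1 s), Finset.sum_comm (s := (univ : Finset (Y K × Y K)))]
    apply Finset.sum_congr rfl
    intro p _
    rw [Finset.sum_comm (s := (univ : Finset (Y K × Y K)))]
    apply Finset.sum_congr rfl
    intro q _
    rw [Finset.sum_filter]
  rw [hN] at hmain
  have hcost : ∑ j ∈ range (2 * K), ∑ s, ρ s *
        min ((g K j s.1 s.2 / Real.sqrt K) ^ 2) |g K j s.1 s.2 / Real.sqrt K| ≤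
      4 * ∑ s, ρ s * Ys s := by
    rw [Finset.sum_comm, Finset.mul_sum]
    apply Finset.sum_le_sum
    intro s _
    rw [← Finset.mul_sum, hYs]
    simp only
    have h1 : ∑ j ∈ range (2 * K), min ((g K j s.1 s.2 / Real.sqrt K) ^ 2)
        |g K j s.1 s.2 / Real.sqrt K| ≤
        4 * ∑ j ∈ range (2 * K), Real.log (Real.cosh (g K j s.1 s.2 / Real.sqrt K)) := by
      rw [Finset.mul_sum]
      apply Finset.sum_le_sum
      intro j _
      exact logcosh46 _
    have h2 := mul_le_mul_of_nonneg_left h1 (hρ.pos s).le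
    linarith
  have hkl0 := kl_nonneg46 ρ hρ
  have hCK : 0 < C * K := mul_pos hC hKpos
  have h1 : ∑ s, ρ s * Nw w s.1 s.2 ≤ C * K * (4 * (kl ρ + ∑ s, ρ s * Ys s)) := by
    refine le_trans hmain ?_
    apply mul_le_mul_of_nonneg_left _ hCK.le
    linarith
  have h2 : ∑ s, ρ s * f s ≤ kl ρ := by
    have h3 : ∑ s, ρ s * f s = (∑ s, ρ s * Nw w s.1 s.2) / (4 * C * K) - ∑ s, ρ s * Ys s := by
      rw [Finset.sum_div, ← Finset.sum_sub_distrib]
      apply Finset.sum_congr rfl
      intro s _
      rw [hf]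
      simp only
      ring
    rw [h3]
    have h4 : (∑ s, ρ s * Nw w s.1 s.2) / (4 * C * K) ≤ kl ρ + ∑ s, ρ s * Ys s := by
      rw [div_le_iff₀ (by positivity)]
      linarith
    linarith
  have h3 : Real.log (Z / 4 ^ K) ≤ 0 := by
    rw [hkl] at h2
    linarith
  have h4 : Z / 4 ^ K ≤ 1 := by
    by_contra hcon
    push Not at hcon
    exact absurd (Real.log_pos hcon) (not_lt.mpr h3)
  rw [div_le_one (by positivity)] at h4
  exact h4

end Pool.Agent.SBW.T46
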