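import Pool.Agent.Lib.SBW.TopA46
import Pool.Agent.Lib.MP_a7b2aa_an.SBT.StmtsT30

/-!
SBW, top part (helper46), B: from a function of three sign vectors to the structure `StrR`.
-/

set_option autoImplicit false

namespace Pool.Agent.SBW.T46

open Finset Pool.Agent.SB3 Pool.Agent.SBT Pool.Agent.SBW

/-! ### small facts about `Ey` -/

theorem Ey_add46 {L : ℕ} (i : ℕ) (φ ψ : Y L → ℝ) (a : ℝ) (x : Y L) :
    Ey i (fun x' => φ x' + a * ψ x') x = Ey i φ x + a * Ey i ψ x := by
  unfold Ey
  rw [← mul_div_assoc, ← add_div, Finset.mul_sum, ← Finset.sum_add_distrib]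
  congr 1
  apply Finset.sum_congr rfl
  intro x' _
  split_ifs <;> simp

theorem Ey_smul46 {L : ℕ} (i : ℕ) (ψ : Y L → ℝ) (a : ℝ) (x : Y L) :
    Ey i (fun x' => a * ψ x') x = a * Ey i ψ x := by
  have h := Ey_add46 i (fun _ => (0 : ℝ)) ψ a x
  have h0 : Ey i (fun _ : Y L => (0 : ℝ)) x = 0 := by
    unfold Ey
    simp
  simp only [zero_add] at h
  rw [h, h0, zero_add]

theorem Ey_zero46 {L : ℕ} (i : ℕ) (x : Y L) : Ey i (fun _ : Y L => (0 : ℝ)) x = 0 := by
  unfold Ey
  simp

theorem Ey_congr46 {L : ℕ} (i : ℕ) {φ ψ : Y L → ℝ} (h : ∀ x, φ x = ψ x) (x : Y L) :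
    Ey i φ x = Ey i ψ x := by
  have : φ = ψ := funext h
  rw [this]

theorem Ey_sum46 {L : ℕ} {ι : Type} (s : Finset ι) (i : ℕ) (φ : ι → Y L → ℝ) (x : Y L) :
    Ey i (fun x' => ∑ k ∈ s, φ k x') x = ∑ k ∈ s, Ey i (φ k) x := by
  unfold Ey
  rw [← Finset.sum_div]
  congr 1
  rw [Finset.sum_comm]
  apply Finset.sum_congr rfl
  intro x' _
  split_ifs <;> simp

theorem Ey_comm46 {L L' : ℕ} (i p : ℕ) (F : Y L → Y L' → ℝ) (x : Y L) (y : Y L') :
    Ey i (fun x' => Ey p (fun y' => F x' y') y) x =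
      Ey p (fun y' => Ey i (fun x' => F x' y') x) y := by
  unfold Ey
  have h1 : ∀ x' : Y L, (if pre i x' = pre i x then
      (∑ y' : Y L', if pre p y' = pre p y then F x' y' else 0) / 2 ^ (L' - p) else 0) =
      (∑ y' : Y L', if pre p y' = pre p y then (if pre i x' = pre i x then F x' y' else 0)
        else 0) / 2 ^ (L' - p) := by
    intro x'
    split_ifs with h
    · rfl
    · simp
  have h2 : ∀ y' : Y L', (if pre p y' = pre p y then
      (∑ x' : Y L, if pre i x' = pre i x then F x' y' else 0) / 2 ^ (L - i) else 0) =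
      (∑ x' : Y L, if pre p y' = pre p y then (if pre i x' = pre i x then F x' y' else 0)
        else 0) / 2 ^ (L - i) := by
    intro y'
    split_ifs with h
    · rfl
    · simp
  rw [Finset.sum_congr rfl (fun x' _ => h1 x'), Finset.sum_congr rfl (fun y' _ => h2 y'),
    ← Finset.sum_div, ← Finset.sum_div, Finset.sum_comm, div_div, div_div, mul_comm]

theorem Ey_sgr46 {L : ℕ} {i : ℕ} (hi : i < L) (a : ℝ) (x : Y L) :
    Ey i (fun x' => sgr (bit x' i) * a) x = 0 := by
  rw [Ey_d133 hi (fun _ => a) x]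
  rw [Ey_congr46 i (ψ := fun _ => 0) (fun x => by simp [d1]) x, Ey_zero46]

theorem Ey_sgr_dep46 {L : ℕ} {i : ℕ} (hi : i < L) (φ : Y L → ℝ)
    (hφ : ∀ x x', pre i x = pre i x' → φ x = φ x') (x : Y L) :
    Ey i (fun x' => sgr (bit x' i) * φ x') x = 0 := by
  have h1 : Ey i (fun x' => sgr (bit x' i) * φ x') x = Ey i (fun x' => φ x' * sgr (bit x' i)) x :=
    Ey_congr46 i (fun x' => mul_comm _ _) x
  rw [h1, Ey_mul33 φ (fun x' => sgr (bit x' i)) hφ]
  have h2 := Ey_sgr46 hi 1 x
  simp only [mul_one] at h2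
  rw [h2, mul_zero]

/-- a function whose finer differences vanish is its average -/
theorem Ey_trunc46 {L : ℕ} (φ : Y L → ℝ) (q0 : ℕ)
    (h : ∀ q, q0 ≤ q → q < L → ∀ x, Ey q (fun x' => sgr (bit x' q) * φ x') x = 0) (x : Y L) :
    Ey q0 φ x = φ x := by
  by_cases hq : L ≤ q0
  · exact Ey_top33 hq φ x
  · have key : ∀ k, q0 + k ≤ L → Ey (q0 + k) φ x = Ey q0 φ x := by
      intro k
      induction k with
      | zero => intro _; rfl
      | succ k ih =>
        intro hk
        have h1 := Ey_diff33 (by omega : q0 + k < L) φ x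
        rw [h (q0 + k) (by omega) (by omega) x, mul_zero] at h1
        rw [← ih (by omega)]
        have h2 : q0 + (k + 1) = q0 + k + 1 := by ring
        rw [h2]
        linarith
    have h2 := key (L - q0) (by omega)
    have h3 : q0 + (L - q0) = L := by omega
    rw [h3, Ey_top33 le_rfl] at h2
    exact h2.symm

/-! ### admissible functions of level `j` -/

/-- the coefficient of the sign `y_p` -/
noncomputable def Wp {L : ℕ} (G : Y L → Y L → ℝ) (p : ℕ) (y z : Y L) : ℝ :=
  Ey p (fun y' => sgr (bit y' p) * G y' z) y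

/-- admissible functions of level `j`, with top coefficients `cc` -/
structure Adm (L j : ℕ) (G : Y L → Y L → ℝ) (cc : ℕ → Y L → Y L → ℝ) : Prop where
  d1 : ∀ y y' z, pre (j + 1) y = pre (j + 1) y' → G y z = G y' z
  d2 : ∀ p, p ≤ j → ∀ y z z', pre (j - p + 1) z = pre (j - p + 1) z' → Wp G p y z = Wp G p y z'
  top : ∀ p, p ≤ j → ∀ y z,
    Ey (j - p) (fun z' => sgr (bit z' (j - p)) * Wp G p y z') z = cc p y z

theorem Wp_add46 {L : ℕ} (G G' : Y L → Y L → ℝ) (a : ℝ) (p : ℕ) (y z : Y L) :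
    Wp (fun y z => G y z + a * G' y z) p y z = Wp G p y z + a * Wp G' p y z := by
  unfold Wp
  rw [← Ey_add46]
  apply Ey_congr46
  intro y'
  ring

theorem adm_add46 {L j : ℕ} {G G' : Y L → Y L → ℝ} {cc cc' : ℕ → Y L → Y L → ℝ} (a : ℝ)
    (h : Adm L j G cc) (h' : Adm L j G' cc') :
    Adm L j (fun y z => G y z + a * G' y z) (fun p y z => cc p y z + a * cc' p y z) := by
  refine ⟨?_, ?_, ?_⟩
  · intro y y' z hy
    rw [h.d1 y y' z hy, h'.d1 y y' z hy]
  · intro p hp y z z' hz
    rw [Wp_add46, Wp_add46, h.d2 p hp y z z' hz, h'.d2 p hp y z z' hz]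
  · intro p hp y z
    rw [← h.top p hp y z, ← h'.top p hp y z, ← Ey_add46]
    apply Ey_congr46
    intro z'
    rw [Wp_add46]
    ring

theorem adm_zero46 {L j : ℕ} : Adm L j (fun _ _ => (0 : ℝ)) (fun _ _ _ => 0) := by
  have h0 : ∀ p (y z : Y L), Wp (fun _ _ : Y L => (0 : ℝ)) p y z = 0 := by
    intro p y z
    unfold Wp
    rw [Ey_congr46 p (ψ := fun _ => 0) (fun y' => by simp) y, Ey_zero46]
  refine ⟨fun _ _ _ _ => rfl, ?_, ?_⟩
  · intro p _ y z z' _
    rw [h0, h0]
  · intro p _ y z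
    rw [Ey_congr46 (j - p) (ψ := fun _ => 0) (fun z' => by rw [h0, mul_zero]) z, Ey_zero46]

theorem adm_sum46 {L j : ℕ} {ι : Type} (s : Finset ι) (G : ι → Y L → Y L → ℝ)
    (h : ∀ k ∈ s, Adm L j (G k) (fun _ _ _ => 0)) :
    Adm L j (fun y z => ∑ k ∈ s, G k y z) (fun _ _ _ => 0) := by
  classical
  induction s using Finset.induction_on with
  | empty =>
    simp only [Finset.sum_empty]
    exact adm_zero46
  | insert a s ha ih =>
    have h1 := h a (Finset.mem_insert_self a s)
    have h2 := ih (fun k hk => h k (Finset.mem_insert_of_mem hk))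
    have h3 := adm_add46 1 h1 h2
    have h4 : (fun y z => ∑ k ∈ insert a s, G k y z) =
        (fun y z => G a y z + 1 * ∑ k ∈ s, G k y z) := by
      funext y z
      rw [Finset.sum_insert ha, one_mul]
    have h5 : (fun (_ : ℕ) (_ _ : Y L) => (0 : ℝ)) =
        (fun (_ : ℕ) (_ _ : Y L) => (0 : ℝ) + 1 * 0) := by
      funext p y z
      ring
    rw [h4, h5]
    exact h3

/-- STR: the structure of Theorem W -/
theorem str46 {L : ℕ} (G : ℕ → Y L → Y L → ℝ) (cc : ℕ → ℕ → Y L → Y L → ℝ)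
    (h : ∀ j < L, Adm L j (G j) (cc j)) :
    StrR L (fun p j y z => if j < L then Ey p (fun y' => G j y' z) y else 0)
      (fun p q y z => if p + q < L then cc (p + q) p y z else 0)
      (fun p q y z => if p + q < L then
        sgr (bit y p) * Ey q (fun z' => Wp (G (p + q)) p y z') z else 0) := by
  refine ⟨?_, ?_, ?_, ?_, ?_⟩
  · intro p j y y' z hy
    split_ifs
    · exact Ey_pre33 _ hy
    · rfl
  · intro p q y z hp hq
    by_cases hpq : p + q < L
    · rw [if_pos hpq, if_pos hpq, if_pos hpq, if_pos hpq]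
      have h1 := Ey_diff33 hp (fun y' => G (p + q) y' z) y
      have h2 : Ey (q + 1) (fun z' => Wp (G (p + q)) p y z') z = Wp (G (p + q)) p y z := by
        apply Ey_mea33 _ L (q + 1) (by omega)
        intro z1 z2 hz
        apply (h (p + q) hpq).d2 p (by omega) y z1 z2
        have h3 : p + q - p + 1 = q + 1 := by omega
        rw [h3]
        exact hz
      have h3 := Ey_diff33 hq (fun z' => Wp (G (p + q)) p y z') z
      have h4 := (h (p + q) hpq).top p (by omega) y z
      have h5 : p + q - p = q := by omega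
      rw [h5] at h4
      rw [h4, h2] at h3
      have h6 : Ey p (fun x' => sgr (bit x' p) * G (p + q) x' z) y = Wp (G (p + q)) p y z := rfl
      rw [h6] at h1
      linear_combination h1 + sgr (bit y p) * h3
    · rw [if_neg hpq, if_neg hpq, if_neg hpq, if_neg hpq]
      ring
  · intro p j y z _ hjp
    split_ifs with hj
    · rw [Ey_top33 le_rfl]
      apply Ey_mea33 (fun y' => G j y' z) L p (by omega)
      intro y1 y2 hy
      exact (h j hj).d1 y1 y2 z (pre_mono33 (by omega : j + 1 ≤ p) hy)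
    · rfl
  · intro p q y y' z z' hy hz
    split_ifs with hpq
    · rw [← (h (p + q) hpq).top p (by omega) y z, ← (h (p + q) hpq).top p (by omega) y' z']
      have h5 : p + q - p = q := by omega
      rw [h5]
      have h6 : ∀ z'', Wp (G (p + q)) p y z'' = Wp (G (p + q)) p y' z'' := by
        intro z''
        exact Ey_pre33 _ hy
      rw [Ey_congr46 q (fun z'' => by rw [h6 z'']) z]
      exact Ey_pre33 _ hz
    · rfl
  · intro p q y y' z z' hy hz
    split_ifs with hpq
    · have h6 : ∀ z'', Wp (G (p + q)) p y z'' = Wp (G (p + q)) p y' z'' := by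
        intro z''
        exact Ey_pre33 _ (pre_mono33 (by omega : p ≤ p + 1) hy)
      rw [bit_of_pre33 (Nat.lt_succ_self p) hy, Ey_congr46 q (fun z'' => h6 z'') z,
        Ey_pre33 _ hz]
    · rfl

end Pool.Agent.SBW.T46
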